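import Pool.Agent.WLG.Core

/-!
# WLG: few small generators, and large embedding dimension
-/

set_option autoImplicit false

namespace Pool.Agent.WLG

open Finset Pool.Agent.WLF Pool.Agent.Helper60.Wilf Pool.Agent.Helper82.Wilf

variable {S : AddSubmonoid ℕ} {c m : ℕ}

/-- the small generators different from the multiplicity -/
def Bs (A : Finset ℕ) (c m : ℕ) : Finset ℕ := A.filter fun p => p ≠ m ∧ 2 * p < c + m

theorem few_aux (H : Sg S c m) {A : Finset ℕ} (hA : ∀ a, a ∈ A ↔ Prim S a) (hc : 0 < c)
    (hne : A.card ≠ m) (hU : 3 * ((Bs A c m).card + 1) ≤ A.card + 1) :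
    c < A.card * (elF S 0 c).card := by
  classical
  have hmA : m ∈ A := (hA m).2 H.prim_m
  have hd0 : 0 < A.card := card_pos.2 ⟨m, hmA⟩
  obtain ⟨k, hk⟩ : ∃ k, A.card = k + 1 := ⟨A.card - 1, by omega⟩
  obtain ⟨a, T, ha, hTc, hone, hdown, hinj, himg⟩ := thm_Ape S c m k A H hA hk
  have hm0 := H.hm0
  have hfT : ∀ x ∈ T, ape_s a x ∈ QQ S c m := by
    intro x hx
    unfold QQ
    rw [← himg]
    exact mem_image_of_mem _ hx
  -- the generators
  have hsurj : ∀ p ∈ A.erase m, ∃ i, a i = p := by
    intro p hp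
    obtain ⟨hpm, hpA⟩ := mem_erase.1 hp
    have hP := (hA p).1 hpA
    have hAp := H.prim_ap hP hpm
    have h1 : p ∈ T.image (fun x => ∑ i, a i * x i) := by
      rw [himg, mem_insert, mem_A0 H]
      exact Or.inr hAp
    obtain ⟨x, hx, hxp⟩ := mem_image.1 h1
    have hx0 : ∃ i, x i ≠ 0 := by
      by_contra h
      push Not at h
      apply hP.2.1
      rw [← hxp]
      exact sum_eq_zero fun i _ => by rw [h i, mul_zero]
    obtain ⟨i, hi⟩ := hx0
    refine ⟨i, ?_⟩
    have h2 : Function.update x i (x i - 1) ∈ T := by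
      apply hdown x hx
      intro j
      by_cases hj : j = i
      · subst hj
        rw [Function.update_self]
        exact Nat.sub_le _ _
      · rw [Function.update_of_ne hj]
    have h3 := ape_s_succ a (Function.update x i (x i - 1)) i
    rw [Function.update_self, Function.update_idem, Nat.sub_add_cancel (by omega),
      Function.update_eq_self] at h3
    have h4 : ape_s a x = p := hxp
    have h5 := QQ_S H (hfT _ h2)
    have h6 : a i ∈ S := by
      have := QQ_S H (hfT _ (hone i))
      rwa [ape_single] at this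
    rcases hP.2.2 _ h5 _ h6 (by omega) with h | h
    · omega
    · have := ha i
      omega
  have hcardE : (A.erase m).card = k := by
    have := card_erase_add_one hmA
    omega
  have himA : univ.image a = A.erase m := by
    symm
    apply eq_of_subset_of_card_le
    · intro p hp
      obtain ⟨i, hi⟩ := hsurj p hp
      exact mem_image.2 ⟨i, mem_univ i, hi⟩
    · exact card_image_le.trans_eq (by rw [card_univ, Fintype.card_fin, hcardE])
  have hU' : (univ.filter fun i => 2 * a i < c + m).card ≤ (Bs A c m).card := by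
    have hainj : Function.Injective a := by
      intro i j h
      have h1 : (Pi.single i 1 : Fin k → ℕ) = Pi.single j 1 := by
        apply hinj _ (hone i) _ (hone j)
        have e1 := ape_single a i
        have e2 := ape_single a j
        unfold ape_s at e1 e2
        rw [e1, e2, h]
      by_contra hij
      have := congrFun h1 i
      rw [Pi.single_eq_same, Pi.single_eq_of_ne hij] at this
      exact one_ne_zero this
    rw [← card_image_of_injective _ hainj]
    apply card_le_card
    intro p hp
    obtain ⟨i, hi, rfl⟩ := mem_image.1 hp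
    have h1 : a i ∈ A.erase m := by
      rw [← himA]
      exact mem_image_of_mem _ (mem_univ i)
    unfold Bs
    rw [mem_filter]
    exact ⟨(mem_erase.1 h1).2, (mem_erase.1 h1).1, (mem_filter.1 hi).2⟩
  have h := core hm0 hc ha hone hdown hTc (fun x hx => QQ_lt H (hfT x hx))
    (by omega) (by omega)
  have hsum : ∑ x ∈ T, gg c m (ape_s a x) = (m : ℝ) * ((elF S 0 c).card : ℝ) := by
    rw [← sum_gg H]
    unfold QQ
    rw [← himg, sum_image]
    · rfl
    · intro x hx y hy hxy
      exact hinj x hx y hy hxy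
  rw [hsum] at h
  have hmr : (0 : ℝ) < m := by exact_mod_cast hm0
  have h2 : (m : ℝ) * c < m * (A.card * (elF S 0 c).card) := by
    rw [hk]
    push_cast
    linarith
  have h3 := lt_of_mul_lt_mul_left h2 hmr.le
  exact_mod_cast h3

theorem lt_of_ne (H : Sg S c m) {A : Finset ℕ} (hA : ∀ a, a ∈ A ↔ Prim S a)
    (hne : A.card ≠ m) : m < c := by
  classical
  by_contra hcon
  have h1 := card_DE H hA
  have h2 : DE S c m = ∅ := by
    rw [eq_empty_iff_forall_notMem]
    intro z hz
    unfold DE at hz
    rw [mem_filter, mem_A0 H] at hz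
    obtain ⟨a, b, ha, hb, hab⟩ := H.not_prim hz.1 hz.2
    have hz' := H.ap_lt hz.1
    have ha' := H.ap_gt ha
    have hb' := H.ap_gt hb
    omega
  rw [h2, card_empty] at h1
  omega

/-- **Theorem I.** If at most `(d + 1) / 3` of the minimal generators are `≤ (F + m) / 2`, then
Wilf's inequality is strict. -/
theorem thm_I (H : Sg S c m) {A : Finset ℕ} (hA : ∀ a, a ∈ A ↔ Prim S a) (hc : 0 < c)
    (hne : A.card ≠ m) (hU : 3 * (A.filter fun p => 2 * p < c + m).card ≤ A.card + 1) :
    c < A.card * (elF S 0 c).card := by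
  classical
  refine few_aux H hA hc hne ?_
  have hmc := lt_of_ne H hA hne
  have hmA : m ∈ A := (hA m).2 H.prim_m
  have h1 : m ∈ A.filter fun p => 2 * p < c + m := mem_filter.2 ⟨hmA, by omega⟩
  have h2 : Bs A c m = (A.filter fun p => 2 * p < c + m).erase m := by
    ext p
    unfold Bs
    rw [mem_filter, mem_erase, mem_filter]
    tauto
  have h3 := card_erase_add_one h1
  rw [h2]
  omega

/-- **Theorem G8.** -/
theorem thm_G8 (H : Sg S c m) {A : Finset ℕ} (hA : ∀ a, a ∈ A ↔ Prim S a) (hc : 0 < c)
    (hne : A.card ≠ m) (hd : 8 * m ≤ A.card ^ 2) : c < A.card * (elF S 0 c).card := by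
  classical
  have hm0 := H.hm0
  rcases Nat.lt_or_ge (4 * m) c with h8 | h8
  swap
  · refine thm_P H hA hc hne ?_
    have h1 : lam c m 0 ≤ 4 := by
      unfold lam
      rw [← Nat.lt_succ_iff, Nat.div_lt_iff_lt_mul hm0]
      omega
    have h2 : (lam c m 0) ^ 2 ≤ 16 := by nlinarith
    calc (lam c m 0) ^ 2 * m ≤ 16 * m := Nat.mul_le_mul_right _ h2
      _ ≤ 2 * A.card ^ 2 := by omega
  by_contra hcon
  rw [not_lt] at hcon
  have hmA : m ∈ A := (hA m).2 H.prim_m
  have hd0 : 0 < A.card := card_pos.2 ⟨m, hmA⟩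
  have hU : A.card + 1 < 3 * ((Bs A c m).card + 1) := by
    by_contra h
    exact absurd (few_aux H hA hc hne (by omega)) (by omega)
  have h0 : (0 : ℕ) ∉ Bs A c m := by
    intro h
    unfold Bs at h
    exact ((hA 0).1 (mem_filter.1 h).1).2.1 rfl
  have h1 : insert 0 (Bs A c m) ⊆ QQ S c m := by
    intro x hx
    rcases mem_insert.1 hx with rfl | hx
    · exact mem_QQ_zero
    · unfold Bs at hx
      obtain ⟨h2, h3, _⟩ := mem_filter.1 hx
      have hP := (hA x).1 h2
      exact (mem_QQ H hP.2.1).2 (H.prim_ap hP h3)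
  have hcr : (0 : ℝ) < c := by exact_mod_cast hc
  have h2 : (c : ℝ) + 3 * (c : ℝ) / 8 * (Bs A c m).card ≤ (m : ℝ) * ((elF S 0 c).card : ℝ) := by
    rw [← sum_gg H]
    calc (c : ℝ) + 3 * (c : ℝ) / 8 * (Bs A c m).card
        = c + ∑ x ∈ Bs A c m, 3 * (c : ℝ) / 8 := by
          rw [sum_const, nsmul_eq_mul]
          ring
      _ ≤ gg c m 0 + ∑ x ∈ Bs A c m, gg c m x := by
          apply add_le_add
          · have := gg_ge' (c := c) hm0 (show 0 < c + m by omega)
            rw [Nat.cast_zero, sub_zero] at this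
            exact this
          · apply sum_le_sum
            intro x hx
            have e1 := gg_ge H (h1 (mem_insert_of_mem hx))
            unfold Bs at hx
            have e2 := (mem_filter.1 hx).2.2
            have e3 : (2 : ℝ) * x < c + m := by exact_mod_cast e2
            have e4 : (4 : ℝ) * m < c := by exact_mod_cast h8
            linarith
      _ = ∑ x ∈ insert 0 (Bs A c m), gg c m x := (sum_insert h0).symm
      _ ≤ _ := sum_le_sum_of_subset_of_nonneg h1 fun x _ _ => gg_nonneg x
  have hcon' : (A.card : ℝ) * ((elF S 0 c).card : ℝ) ≤ c := by exact_mod_cast hcon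
  have hmn : (A.card : ℝ) * ((m : ℝ) * ((elF S 0 c).card : ℝ)) ≤ c * m := by
    have : (m : ℝ) * ((A.card : ℝ) * ((elF S 0 c).card : ℝ)) ≤ m * c :=
      mul_le_mul_of_nonneg_left hcon' (Nat.cast_nonneg _)
    linarith
  have hd0r : (0 : ℝ) < (A.card : ℝ) := by exact_mod_cast hd0
  have h3 := (mul_le_mul_of_nonneg_left h2 hd0r.le).trans hmn
  have h4 : (c : ℝ) * (A.card * (1 + 3 / 8 * (Bs A c m).card)) ≤ c * m := by linarith
  have h5 := le_of_mul_le_mul_left h4 hcr
  have h6 : (A.card : ℝ) - 1 ≤ 3 * (Bs A c m).card := by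
    have : A.card ≤ 3 * (Bs A c m).card + 1 := by omega
    have : (A.card : ℝ) ≤ 3 * (Bs A c m).card + 1 := by exact_mod_cast this
    linarith
  have h7 : 8 * (m : ℝ) ≤ (A.card : ℝ) ^ 2 := by exact_mod_cast hd
  have h8 := mul_le_mul_of_nonneg_left h6 hd0r.le
  nlinarith

end Pool.Agent.WLG
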