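import Pool.Agent.WLF.Avg
import Pool.Agent.WLF.Line

/-!
# WLG: the average over the points of a down-set which are not maximal
-/

set_option autoImplicit false

namespace Pool.Agent.WLG

open Finset Pool.Agent.WLF

/-- the points which are not maximal -/
noncomputable def nmx {k : ℕ} (D : Finset (Fin k → ℕ)) : Finset (Fin k → ℕ) := by
  classical
  exact D.filter fun x => ∃ i, Function.update x i (x i + 1) ∈ D

theorem mem_nmx {k : ℕ} {D : Finset (Fin k → ℕ)} {x : Fin k → ℕ} :
    x ∈ nmx D ↔ x ∈ D ∧ ∃ i, Function.update x i (x i + 1) ∈ D := by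
  classical
  unfold nmx
  rw [mem_filter]

theorem upd_le {k : ℕ} {x : Fin k → ℕ} {i : Fin k} {n n' : ℕ} (h : n ≤ n') :
    Function.update x i n ≤ Function.update x i n' := by
  intro j
  by_cases hj : j = i
  · subst hj
    rw [Function.update_self, Function.update_self]
    exact h
  · rw [Function.update_of_ne hj, Function.update_of_ne hj]

/-- **AVN.** -/
theorem avn {k : ℕ} (D : Finset (Fin k → ℕ)) (hD : ∀ x ∈ D, ∀ y : Fin k → ℕ, y ≤ x → y ∈ D)
    (w : Fin k → ℝ) (U : Finset (Fin k)) (hU : ∀ x ∈ D, ∀ i, i ∉ U → x i = 0) (W : ℝ)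
    (hW : ∀ x ∈ D, wt w x ≤ W) (h0 : ∃ x ∈ D, x ≠ 0) :
    (D.card : ℝ) * W ≤ ((U.card : ℝ) + 1) * ∑ x ∈ nmx D, (W - wt w x) := by
  classical
  have hL := thm_Line k D hD
  have hA := thm_Avg thm_Line k w D hD
  set τ : (Fin k → ℕ) → ℝ := fun x => W - wt w x with hτ
  set E : (Fin k → ℕ) → Fin k → (Fin k → ℕ) := fun x i => Function.update x i (en D i x) with hE
  have hEm : ∀ x ∈ D, ∀ i, E x i ∈ D := fun x hx i => (hL i).1 x hx
  have hτ0 : ∀ x ∈ D, 0 ≤ τ x := fun x hx => sub_nonneg.2 (hW x hx)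
  have hen : ∀ x ∈ D, ∀ i, x i ≤ en D i x := by
    intro x hx i
    apply (hL i).2.1
    rw [Function.update_eq_self]
    exact hx
  -- the identity
  have h1 : ∑ x ∈ D, ∑ i, τ (E x i) = ((k : ℝ) + 1) * ∑ x ∈ D, τ x - D.card * W := by
    have e1 : ∑ x ∈ D, ∑ i, τ (E x i) = ∑ x ∈ D, ((k : ℝ) * W - ∑ i, wt w (E x i)) := by
      apply sum_congr rfl
      intro x _
      rw [hτ, sum_sub_distrib, sum_const, card_univ, Fintype.card_fin, nsmul_eq_mul]
    rw [e1, sum_sub_distrib, sum_const, nsmul_eq_mul, hA, hτ, sum_sub_distrib, sum_const,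
      nsmul_eq_mul]
    ring
  have h2 : ∀ x ∈ D, ∀ i, i ∉ U → E x i = x := by
    intro x hx i hi
    have e1 := hU _ (hEm x hx i) i hi
    have e2 := hU x hx i hi
    rw [hE] at e1 ⊢
    simp only [Function.update_self] at e1
    simp only [e1]
    rw [← e2]
    exact Function.update_eq_self i x
  have h3 : ∑ x ∈ D, ∑ i ∈ U, τ (E x i) = ((U.card : ℝ) + 1) * ∑ x ∈ D, τ x - D.card * W := by
    have e1 : ∀ x ∈ D, ∑ i, τ (E x i) = ∑ i ∈ U, τ (E x i) + ((k : ℝ) - U.card) * τ x := by
      intro x hx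
      rw [← sum_add_sum_compl U]
      congr 1
      rw [sum_congr rfl fun i hi => by rw [h2 x hx i (mem_compl.1 hi)], sum_const, card_compl,
        Fintype.card_fin, nsmul_eq_mul, Nat.cast_sub (card_le_univ U |>.trans_eq (Fintype.card_fin k))]
    rw [sum_congr rfl e1, sum_add_distrib, ← mul_sum] at h1
    linarith
  -- maximal points
  set mx := D.filter fun x => ¬ ∃ i, Function.update x i (x i + 1) ∈ D with hmx
  have hsplit : ∀ g : (Fin k → ℕ) → ℝ, ∑ x ∈ D, g x = ∑ x ∈ nmx D, g x + ∑ x ∈ mx, g x := by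
    intro g
    unfold nmx
    exact (sum_filter_add_sum_filter_not D _ g).symm
  have h4 : ∀ x ∈ mx, ∀ i, E x i = x := by
    intro x hx i
    obtain ⟨hx1, hx2⟩ := mem_filter.1 hx
    have e1 : en D i x = x i := by
      apply le_antisymm _ (hen x hx1 i)
      by_contra hcon
      rw [not_le] at hcon
      exact hx2 ⟨i, hD _ (hEm x hx1 i) _ (upd_le hcon)⟩
    rw [hE]
    simp only [e1]
    exact Function.update_eq_self i x
  have h5 : ∀ x ∈ mx, ∃ i ∈ U, 1 ≤ x i := by
    intro x hx
    obtain ⟨hx1, hx2⟩ := mem_filter.1 hx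
    by_contra hcon
    push Not at hcon
    have hx0 : x = 0 := by
      funext i
      by_cases hi : i ∈ U
      · have := hcon i hi
        simp only [Pi.zero_apply]
        omega
      · exact hU x hx1 i hi
    obtain ⟨y, hy, hy0⟩ := h0
    have : ∃ i, y i ≠ 0 := by
      by_contra h
      push Not at h
      exact hy0 (funext h)
    obtain ⟨i, hi⟩ := this
    refine hx2 ⟨i, hD y hy _ ?_⟩
    intro j
    by_cases hj : j = i
    · subst hj
      rw [Function.update_self, hx0]
      simp only [Pi.zero_apply]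
      omega
    · rw [Function.update_of_ne hj, hx0]
      exact Nat.zero_le _
  have : Nonempty (Fin k) := by
    obtain ⟨y, _, hy0⟩ := h0
    by_contra h
    rw [not_nonempty_iff] at h
    exact hy0 (funext fun i => (h.false i).elim)
  choose! iz hiU hi1 using h5
  have h6 : ∑ x ∈ mx, τ x ≤ ∑ x ∈ nmx D, ∑ i ∈ U, τ (E x i) := by
    rw [← sum_product']
    set φ : (Fin k → ℕ) → (Fin k → ℕ) × Fin k :=
      fun z => (Function.update z (iz z) (z (iz z) - 1), iz z) with hφ
    have hmem : ∀ z ∈ mx, φ z ∈ nmx D ×ˢ U := by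
      intro z hz
      have hz1 := (mem_filter.1 hz).1
      have hz2 := hi1 z hz
      rw [mem_product]
      refine ⟨?_, hiU z hz⟩
      rw [mem_nmx]
      constructor
      · apply hD z hz1
        intro j
        by_cases hj : j = iz z
        · rw [hj, hφ]
          simp only [Function.update_self]
          omega
        · rw [hφ]
          simp only [Function.update_of_ne hj]
          exact le_rfl
      · refine ⟨iz z, ?_⟩
        rw [hφ]
        simp only [Function.update_self, Function.update_idem]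
        rw [Nat.sub_add_cancel hz2, Function.update_eq_self]
        exact hz1
    have hval : ∀ z ∈ mx, E (φ z).1 (φ z).2 = z := by
      intro z hz
      have e1 := (hL (iz z)).2.2.1 z (z (iz z) - 1)
      have e2 := h4 z hz (iz z)
      rw [hE] at e2 ⊢
      rw [hφ]
      simp only at e2 ⊢
      rw [e1, Function.update_idem]
      exact e2
    have hinj : Set.InjOn φ (mx : Set (Fin k → ℕ)) := by
      intro z hz z' hz' h
      rw [← hval z hz, ← hval z' hz', h]
    calc ∑ x ∈ mx, τ x = ∑ x ∈ mx, τ (E (φ x).1 (φ x).2) :=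
          sum_congr rfl fun z hz => by rw [hval z hz]
      _ = ∑ p ∈ mx.image φ, τ (E p.1 p.2) :=
          (sum_image (f := fun p : (Fin k → ℕ) × Fin k => τ (E p.1 p.2)) hinj).symm
      _ ≤ ∑ p ∈ nmx D ×ˢ U, τ (E p.1 p.2) := by
          apply sum_le_sum_of_subset_of_nonneg
          · intro p hp
            obtain ⟨z, hz, rfl⟩ := mem_image.1 hp
            exact hmem z hz
          · intro p hp _
            exact hτ0 _ (hEm _ (mem_nmx.1 (mem_product.1 hp).1).1 _)
  have h7 : ∑ x ∈ mx, ∑ i ∈ U, τ (E x i) = (U.card : ℝ) * ∑ x ∈ mx, τ x := by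
    rw [mul_sum]
    apply sum_congr rfl
    intro x hx
    rw [sum_congr rfl fun i _ => by rw [h4 x hx i], sum_const, nsmul_eq_mul]
  rw [hsplit, h7, hsplit] at h3
  have : ((U.card : ℝ) + 1) * (∑ x ∈ nmx D, τ x + ∑ x ∈ mx, τ x) =
    ((U.card : ℝ) + 1) * ∑ x ∈ nmx D, τ x + (U.card : ℝ) * ∑ x ∈ mx, τ x + ∑ x ∈ mx, τ x := by
    ring
  rw [this] at h3
  linarith

end Pool.Agent.WLG
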