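import Pool.Agent.Helper82.Wilf.Basic

/-!
# WLG: Wilf's inequality for numerical semigroups with `32 m ≤ d ^ 2`, basic facts
-/

set_option autoImplicit false

namespace Pool.Agent.WLG

open Finset Pool.Agent.Helper60.Wilf Pool.Agent.Helper82.Wilf

variable {S : AddSubmonoid ℕ} {c m : ℕ}

/-- light generators -/
def Li (S : AddSubmonoid ℕ) (c m : ℕ) : Set ℕ := {p | Prim S p ∧ Ap S m p ∧ 8 * p ≤ 3 * c}

/-- the light submonoid -/
def LL (S : AddSubmonoid ℕ) (c m : ℕ) : AddSubmonoid ℕ := AddSubmonoid.closure (Li S c m)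

/-- the Apery set -/
noncomputable def QQ (S : AddSubmonoid ℕ) (c m : ℕ) : Finset ℕ := insert 0 (A0 S c m)

theorem LL_le : LL S c m ≤ S := by
  unfold LL
  rw [AddSubmonoid.closure_le]
  intro p hp
  exact hp.1.1

theorem LL_step {y : ℕ} (hy : y ∈ LL S c m) (h0 : y ≠ 0) :
    ∃ u ∈ Li S c m, ∃ z ∈ LL S c m, y = u + z := by
  unfold LL at hy
  induction hy using AddSubmonoid.closure_induction_left with
  | zero => exact absurd rfl h0
  | add_left x hx y hy _ => exact ⟨x, hx, y, hy, rfl⟩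

theorem LL_of_Li {p : ℕ} (hp : p ∈ Li S c m) : p ∈ LL S c m :=
  AddSubmonoid.subset_closure hp

theorem Li_pos {p : ℕ} (hp : p ∈ Li S c m) : 0 < p := Nat.pos_of_ne_zero hp.1.2.1

/-- a generator in the light submonoid is light -/
theorem prim_LL {v : ℕ} (hv : Prim S v) (h : v ∈ LL S c m) : 8 * v ≤ 3 * c := by
  obtain ⟨u, hu, z, hz, e⟩ := LL_step h hv.2.1
  rcases hv.2.2 u hu.1.1 z (LL_le hz) e.symm with h1 | h1
  · exact absurd h1 hu.1.2.1
  · have : v = u := by omega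
    rw [this]
    exact hu.2.2

theorem mem_QQ_zero : 0 ∈ QQ S c m := mem_insert_self _ _

theorem mem_QQ (H : Sg S c m) {x : ℕ} (h0 : x ≠ 0) : x ∈ QQ S c m ↔ Ap S m x := by
  unfold QQ
  rw [mem_insert, mem_A0 H]
  exact ⟨fun h => h.resolve_left h0, Or.inr⟩

theorem QQ_lt (H : Sg S c m) {x : ℕ} (h : x ∈ QQ S c m) : x < c + m := (mem_ins H h).2.1

theorem QQ_S (H : Sg S c m) {x : ℕ} (h : x ∈ QQ S c m) : x ∈ S := (mem_ins H h).1

theorem QQ_gt (H : Sg S c m) {x : ℕ} (h : x ∈ QQ S c m) (h0 : x ≠ 0) : m < x :=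
  H.ap_gt ((mem_QQ H h0).1 h)

theorem QQ_part (H : Sg S c m) {x a b : ℕ} (hx : x ∈ QQ S c m) (ha : a ∈ S) (hb : b ∈ S)
    (hab : a + b = x) : a ∈ QQ S c m := by
  rcases Nat.eq_zero_or_pos a with h | h
  · rw [h]
    exact mem_QQ_zero
  · have h0 : a ≠ 0 := by omega
    have hx0 : x ≠ 0 := by omega
    rw [mem_QQ H h0]
    exact H.ap_part ((mem_QQ H hx0).1 hx) ha hb hab h0

/-- an element outside the light submonoid has a heavy generator as a summand -/
theorem heavy_split (H : Sg S c m) (x : ℕ) (hx : x ∈ QQ S c m) (hL : x ∉ LL S c m) :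
    ∃ v z, Prim S v ∧ Ap S m v ∧ 3 * c < 8 * v ∧ z ∈ S ∧ v + z = x := by
  induction x using Nat.strong_induction_on with
  | _ x ih =>
    have h0 : x ≠ 0 := by
      rintro rfl
      exact hL (LL S c m).zero_mem
    have hA := (mem_QQ H h0).1 hx
    by_cases hp : Prim S x
    · refine ⟨x, 0, hp, hA, ?_, S.zero_mem, by omega⟩
      by_contra hcon
      exact hL (LL_of_Li ⟨hp, hA, by omega⟩)
    · obtain ⟨a, b, ha, hb, hab⟩ := H.not_prim hA hp
      have ha1 := H.ap_gt ha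
      have hb1 := H.ap_gt hb
      by_cases haL : a ∈ LL S c m
      · by_cases hbL : b ∈ LL S c m
        · exact absurd (by rw [← hab]; exact (LL S c m).add_mem haL hbL) hL
        · obtain ⟨v, z, h1, h2, h3, h4, h5⟩ := ih b (by omega)
            ((mem_QQ H (by omega)).2 hb) hbL
          exact ⟨v, z + a, h1, h2, h3, S.add_mem h4 ha.1, by omega⟩
      · obtain ⟨v, z, h1, h2, h3, h4, h5⟩ := ih a (by omega)
          ((mem_QQ H (by omega)).2 ha) haL
        exact ⟨v, z + b, h1, h2, h3, S.add_mem h4 hb.1, by omega⟩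

/-- splitting of a big light element -/
theorem light_split {x : ℕ} : ∀ y : ℕ, y ∈ LL S c m → ∀ z ∈ LL S c m, y + z = x →
    3 * c ≤ 8 * y → 0 < c →
    ∃ y' ∈ LL S c m, ∃ z' ∈ LL S c m, y' + z' = x ∧ 3 * c ≤ 8 * y' ∧ 4 * y' < 3 * c := by
  intro y
  induction y using Nat.strong_induction_on with
  | _ y ih =>
    intro hy z hz hx h8 hc
    by_cases h4 : 4 * y < 3 * c
    · exact ⟨y, hy, z, hz, hx, h8, h4⟩
    · obtain ⟨u, hu, y', hy', e⟩ := LL_step hy (by omega)
      have hu0 := Li_pos hu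
      have hu8 := hu.2.2
      exact ih y' (by omega) hy' (u + z) ((LL S c m).add_mem (LL_of_Li hu) hz) (by omega)
        (by omega) hc

end Pool.Agent.WLG
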