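import Pool.Agent.WLG.Fib

/-!
# WLG: few small generators, core inequality
-/

set_option autoImplicit false

namespace Pool.Agent.WLG

open Finset Pool.Agent.WLF Pool.Agent.Helper60.Wilf Pool.Agent.Helper82.Wilf

variable {k : ℕ}

theorem single_le' {x : Fin k → ℕ} {i : Fin k} (h : x i ≠ 0) : Pi.single i 1 ≤ x := by
  intro j
  by_cases hj : j = i
  · subst hj
    rw [Pi.single_eq_same]
    exact Nat.one_le_iff_ne_zero.2 h
  · rw [Pi.single_eq_of_ne hj]
    exact Nat.zero_le _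

theorem update_zero_single (i : Fin k) : Function.update (0 : Fin k → ℕ) i 1 = Pi.single i 1 := rfl

/-- **Core inequality.** -/
theorem core {c m : ℕ} (hm : 0 < m) (hc : 0 < c) {a : Fin k → ℕ} (ha : ∀ i, m < a i)
    {T : Finset (Fin k → ℕ)} (hone : ∀ i, Pi.single i 1 ∈ T)
    (hT : ∀ x ∈ T, ∀ y : Fin k → ℕ, y ≤ x → y ∈ T) (hcard : T.card = m)
    (hle : ∀ x ∈ T, ape_s a x < c + m) (hne : m ≠ k + 1)
    (hU : 3 * ((univ.filter fun i => 2 * a i < c + m).card + 1) ≤ k + 2) :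
    (c : ℝ) * m < ((k : ℝ) + 1) * ∑ x ∈ T, gg c m (ape_s a x) := by
  classical
  by_contra hcon
  rw [not_lt] at hcon
  set U : Finset (Fin k) := univ.filter fun i => 2 * a i < c + m with hUdef
  set V : Finset (Fin k) := univ.filter fun i => ¬ 2 * a i < c + m with hVdef
  have hUV : U.card + V.card = k := by
    have := card_filter_add_card_filter_not (s := (univ : Finset (Fin k)))
      (fun i => 2 * a i < c + m)
    rw [card_univ, Fintype.card_fin] at this
    exact this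
  have hM : ∀ x ∈ T, ape_s a x ≤ c + m - 1 := fun x hx => by
    have := hle x hx
    omega
  have hV : ∀ v ∈ V, c + m - 1 < 2 * a v := fun v hv => by
    have := (mem_filter.1 hv).2
    omega
  have hVU : ∀ i, i ∉ U → i ∈ V := fun i hi => by
    rw [hVdef, mem_filter]
    exact ⟨mem_univ i, fun h => hi (mem_filter.2 ⟨mem_univ i, h⟩)⟩
  have hm0 : (0 : ℝ) < m := by exact_mod_cast hm
  have hc0 : (0 : ℝ) < c := by exact_mod_cast hc
  have hm1 : (1 : ℝ) ≤ m := by exact_mod_cast hm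
  have hpart := part hT hM hV (fun x => gg c m (ape_s a x))
  have hpc := part_card hT hM hV
  rw [hcard] at hpc
  have hT0 : (0 : Fin k → ℕ) ∈ T := by
    have hTne : T.Nonempty := by
      rw [← card_pos, hcard]
      exact hm
    obtain ⟨x, hx⟩ := hTne
    exact hT x hx 0 fun _ => Nat.zero_le _
  have hz0 : (0 : Fin k → ℕ) ∈ T0 T V := mem_T0.2 ⟨hT0, fun _ _ => rfl⟩
  have hzv : ∀ v ∈ V, (0 : Fin k → ℕ) ∈ Tv T V v := fun v _ =>
    mem_Tv.2 ⟨hz0, by rw [update_zero_single]; exact hone v⟩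
  have hsupp : ∀ x ∈ T0 T V, ∀ i, i ∉ U → x i = 0 := fun x hx i hi =>
    (mem_T0.1 hx).2 i (hVU i hi)
  have hTvT0 : ∀ v, ∀ x ∈ Tv T V v, x ∈ T0 T V := fun v x hx => (mem_Tv.1 hx).1
  -- numbers
  obtain ⟨s, hs⟩ : ∃ s : ℝ, s = (U.card : ℝ) + 1 := ⟨_, rfl⟩
  obtain ⟨d, hd⟩ : ∃ d : ℝ, d = (k : ℝ) + 1 := ⟨_, rfl⟩
  have hs1 : 1 ≤ s := by
    have : (0 : ℝ) ≤ U.card := Nat.cast_nonneg _
    linarith
  have hds : d = V.card + s := by
    have : (k : ℝ) = U.card + V.card := by exact_mod_cast hUV.symm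
    rw [hd, hs]
    linarith
  have h3s : 3 * s ≤ d + 1 := by
    have : (3 : ℝ) * ((U.card : ℝ) + 1) ≤ k + 2 := by exact_mod_cast hU
    linarith
  have hd0 : 0 ≤ d := by
    rw [hd]
    positivity
  rw [← hd] at hcon
  -- fibres
  have hfib : ∀ v ∈ V, ∃ W : ℕ, (∀ x ∈ Tv T V v, ape_s a x ≤ W) ∧
      2 * s * (c * (Tv T V v).card) + (d - 2 * s + 2) * ((Tv T V v).card * W) ≤
      2 * s * (∑ x ∈ Tv T V v, gg c m (ape_s a x) +
        d * ∑ x ∈ Tv T V v, gg c m (ape_s a (Function.update x v 1))) := by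
    intro v hv
    have hD := Tv_down (V := V) (v := v) hT
    have hb : ∀ x ∈ Tv T V v, ape_s a x + a v < c + m := by
      intro x hx
      have h1 := hle _ (mem_Tv.1 hx).2
      rw [ape_s_update a x v ((mem_T0.1 (mem_Tv.1 hx).1).2 v hv), mul_one] at h1
      exact h1
    obtain ⟨W, h1, h2⟩ := fibre hm ha hD (fun x hx => hsupp x (hTvT0 v x hx)) hb (hzv v hv) hd0
    refine ⟨W, h1, ?_⟩
    rw [← hs] at h2
    have e1 : ∑ x ∈ Tv T V v, gg c m (ape_s a (Function.update x v 1)) =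
        ∑ x ∈ Tv T V v, gg c m (ape_s a x + a v) := by
      apply sum_congr rfl
      intro x hx
      rw [ape_s_update a x v ((mem_T0.1 (mem_Tv.1 hx).1).2 v hv), mul_one]
    rw [e1]
    exact h2
  choose! W hW1 hW2 using hfib
  -- the first inequality
  obtain ⟨X0, hX0⟩ : ∃ X, X = ∑ x ∈ T0 T V, gg c m (ape_s a x) := ⟨_, rfl⟩
  have hZ : ∀ v ∈ V, X0 = ∑ x ∈ Tv T V v, gg c m (ape_s a x) +
      ∑ x ∈ T0 T V \ Tv T V v, gg c m (ape_s a x) := by
    intro v _
    rw [hX0, add_comm]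
    exact (sum_sdiff (hTvT0 v)).symm
  have h1 : ∑ v ∈ V, (d - 2 * s + 2) * (((Tv T V v).card : ℝ) * W v) +
      2 * s * ∑ v ∈ V, ∑ x ∈ T0 T V \ Tv T V v, gg c m (ape_s a x) + 2 * s * (s * X0) ≤
      2 * s * (c * (T0 T V).card) := by
    have e1 := sum_le_sum hW2
    have eL : ∑ v ∈ V, (2 * s * (c * ((Tv T V v).card : ℝ)) +
        (d - 2 * s + 2) * (((Tv T V v).card : ℝ) * W v)) =
        2 * s * (c * ∑ v ∈ V, ((Tv T V v).card : ℝ)) +
        ∑ v ∈ V, (d - 2 * s + 2) * (((Tv T V v).card : ℝ) * W v) := by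
      rw [sum_add_distrib, ← mul_sum, ← mul_sum]
    have eR : ∑ v ∈ V, 2 * s * (∑ x ∈ Tv T V v, gg c m (ape_s a x) +
        d * ∑ x ∈ Tv T V v, gg c m (ape_s a (Function.update x v 1))) =
        2 * s * (∑ v ∈ V, ∑ x ∈ Tv T V v, gg c m (ape_s a x) +
        d * ∑ v ∈ V, ∑ x ∈ Tv T V v, gg c m (ape_s a (Function.update x v 1))) := by
      rw [← mul_sum, sum_add_distrib, ← mul_sum]
    rw [eL, eR] at e1
    have e2 : (V.card : ℝ) * X0 = ∑ v ∈ V, ∑ x ∈ Tv T V v, gg c m (ape_s a x) +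
        ∑ v ∈ V, ∑ x ∈ T0 T V \ Tv T V v, gg c m (ape_s a x) := by
      rw [← sum_add_distrib, ← nsmul_eq_mul, ← sum_const]
      exact sum_congr rfl hZ
    rw [hpart, ← hX0] at hcon
    have e3 : d * (X0 + ∑ v ∈ V, ∑ x ∈ Tv T V v, gg c m (ape_s a (Function.update x v 1))) =
      V.card * X0 + s * X0 +
        d * ∑ v ∈ V, ∑ x ∈ Tv T V v, gg c m (ape_s a (Function.update x v 1)) := by
      rw [mul_add, hds]
      ring
    rw [e3, e2, hpc] at hcon
    have e4 := mul_le_mul_of_nonneg_left hcon (show 0 ≤ 2 * s by linarith)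
    nlinarith
  -- nonnegative sums
  have hZ0 : ∀ v ∈ V, 0 ≤ ∑ x ∈ T0 T V \ Tv T V v, gg c m (ape_s a x) :=
    fun v _ => sum_nonneg fun x _ => gg_nonneg _
  have hκ : 0 < d - 2 * s + 2 := by linarith
  rcases Nat.eq_zero_or_pos U.card with hU0 | hU0
  · -- no small generators
    have hT00 : ∀ x ∈ T0 T V, x = 0 := by
      intro x hx
      funext i
      apply hsupp x hx i
      rw [card_eq_zero] at hU0
      rw [hU0]
      exact notMem_empty i
    have e1 : T0 T V = {0} := eq_singleton_iff_unique_mem.2 ⟨hz0, hT00⟩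
    have e2 : ∀ v ∈ V, Tv T V v = {0} := fun v hv =>
      eq_singleton_iff_unique_mem.2 ⟨hzv v hv, fun x hx => hT00 x (hTvT0 v x hx)⟩
    rw [e1, sum_congr rfl fun v hv => by rw [e2 v hv]] at hpc
    simp only [card_singleton, Nat.cast_one, sum_const, nsmul_eq_mul, mul_one] at hpc
    apply hne
    have : m = 1 + V.card := by exact_mod_cast hpc
    omega
  -- the average over `T0`
  have hi0 : ∃ i, i ∈ U := card_pos.1 hU0
  obtain ⟨i0, hi0⟩ := hi0
  have hsing : ∀ i ∈ U, Pi.single i 1 ∈ T0 T V := by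
    intro i hi
    refine mem_T0.2 ⟨hone i, fun v hv => ?_⟩
    apply Pi.single_eq_of_ne
    rintro rfl
    exact (mem_filter.1 hv).2 (mem_filter.1 hi).2
  have hT0d := T0_down (V := V) hT
  have hT0M : ∀ x ∈ T0 T V, ape_s a x < c + m := fun x hx => hle x (mem_T0.1 hx).1
  have hav := avn (T0 T V) hT0d (fun i => (a i : ℝ)) U hsupp ((c : ℝ) + m - 1)
    (fun x hx => by
      rw [wt_ape]
      have h2 : ape_s a x + 1 ≤ c + m := hT0M x hx
      have h3 : ((ape_s a x : ℕ) : ℝ) + 1 ≤ c + m := by exact_mod_cast h2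
      linarith)
    ⟨Pi.single i0 1, hsing i0 hi0, fun h => by
      have := congrFun h i0
      rw [Pi.single_eq_same, Pi.zero_apply] at this
      exact one_ne_zero this⟩
  rw [← hs] at hav
  have h2 : ∑ x ∈ nmx (T0 T V), ((c : ℝ) + m - 1 - wt (fun i => (a i : ℝ)) x) ≤
      X0 + (m - 1) * (nmx (T0 T V)).card := by
    have e1 : ∑ x ∈ nmx (T0 T V), ((c : ℝ) + m - 1 - wt (fun i => (a i : ℝ)) x) ≤
        ∑ x ∈ nmx (T0 T V), (gg c m (ape_s a x) + (m - 1)) := by
      apply sum_le_sum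
      intro x hx
      have e2 := gg_ge' (c := c) hm (hT0M x (mem_nmx.1 hx).1)
      rw [wt_ape]
      linarith
    rw [sum_add_distrib, sum_const, nsmul_eq_mul] at e1
    have e3 : ∑ x ∈ nmx (T0 T V), gg c m (ape_s a x) ≤ X0 := by
      rw [hX0]
      exact sum_le_sum_of_subset_of_nonneg (fun x hx => (mem_nmx.1 hx).1) fun x _ _ => gg_nonneg _
    linarith
  -- nonzero nonmaximal points
  have h0n : (0 : Fin k → ℕ) ∈ nmx (T0 T V) := by
    rw [mem_nmx]
    refine ⟨hz0, i0, ?_⟩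
    have : Function.update (0 : Fin k → ℕ) i0 ((0 : Fin k → ℕ) i0 + 1) = Pi.single i0 1 := rfl
    rw [this]
    exact hsing i0 hi0
  set N := (nmx (T0 T V)).erase 0 with hN
  have hNc : ((nmx (T0 T V)).card : ℝ) = N.card + 1 := by
    rw [hN, ← card_erase_add_one h0n]
    push_cast
    ring
  have hT0s : s ≤ (T0 T V).card := by
    have e1 : (insert 0 (U.image fun i => (Pi.single i 1 : Fin k → ℕ))).card ≤ (T0 T V).card := by
      apply card_le_card
      intro x hx
      rcases mem_insert.1 hx with rfl | hx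
      · exact hz0
      · obtain ⟨i, hi, rfl⟩ := mem_image.1 hx
        exact hsing i hi
    rw [card_insert_of_notMem, card_image_of_injective] at e1
    · rw [hs]
      exact_mod_cast e1
    · intro i j h
      by_contra hij
      have := congrFun h i
      simp only [Pi.single_eq_same, Pi.single_eq_of_ne hij] at this
      exact one_ne_zero this
    · intro h
      obtain ⟨i, _, h⟩ := mem_image.1 h
      have := congrFun h i
      rw [Pi.single_eq_same, Pi.zero_apply] at this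
      exact one_ne_zero this
  have h3 : ∑ v ∈ V, (d - 2 * s + 2) * (((Tv T V v).card : ℝ) * W v) +
      2 * s * ∑ v ∈ V, ∑ x ∈ T0 T V \ Tv T V v, gg c m (ape_s a x) ≤
      2 * s * (s * ((m - 1) * N.card)) := by
    have e1 := mul_le_mul_of_nonneg_left h2 (show 0 ≤ s by linarith)
    rw [hNc] at e1
    have e2 : ((T0 T V).card : ℝ) * ((c : ℝ) + m - 1) ≤ s * X0 + s * ((m - 1) * (N.card + 1)) := by
      linarith
    have e3 := mul_le_mul_of_nonneg_left e2 (show 0 ≤ 2 * s by linarith)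
    have e4 := mul_le_mul_of_nonneg_left
      (mul_le_mul_of_nonneg_right hT0s (show (0 : ℝ) ≤ m - 1 by linarith))
      (show 0 ≤ 2 * s by linarith)
    nlinarith
  -- lower bounds
  have hWm : ∀ v ∈ V, ∀ x ∈ Tv T V v, x ≠ 0 → m < W v := by
    intro v hv x hx h0
    obtain ⟨i, hi⟩ : ∃ i, x i ≠ 0 := by
      by_contra h
      push Not at h
      exact h0 (funext h)
    have e1 := ape_s_ge a x i
    have e2 := ha i
    have e3 := hW1 v hv x hx
    have e4 := Nat.mul_le_mul_left (a i) (Nat.one_le_iff_ne_zero.2 hi)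
    omega
  have h4 : ∀ v ∈ V, (m : ℝ) * (N.filter fun x => x ∈ Tv T V v).card ≤
      ((Tv T V v).card : ℝ) * W v := by
    intro v hv
    rcases (N.filter fun x => x ∈ Tv T V v).eq_empty_or_nonempty with he | ⟨x, hx⟩
    · rw [he, card_empty, Nat.cast_zero, mul_zero]
      positivity
    · have e1 := hWm v hv x (mem_filter.1 hx).2 (mem_erase.1 (mem_filter.1 hx).1).1
      have e2 : (N.filter fun x => x ∈ Tv T V v).card ≤ (Tv T V v).card :=
        card_le_card fun y hy => (mem_filter.1 hy).2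
      have e3 : m * (N.filter fun x => x ∈ Tv T V v).card ≤ (Tv T V v).card * W v := by
        rw [mul_comm]
        exact Nat.mul_le_mul e2 e1.le
      exact_mod_cast e3
  have hNlt : ∀ x ∈ nmx (T0 T V), ape_s a x < c := by
    intro x hx
    obtain ⟨_, i, hi⟩ := mem_nmx.1 hx
    have e1 := hT0M _ hi
    rw [ape_s_succ] at e1
    have e2 := ha i
    omega
  have h5 : ∀ v ∈ V, (m : ℝ) * (N.filter fun x => x ∉ Tv T V v).card ≤
      ∑ x ∈ T0 T V \ Tv T V v, gg c m (ape_s a x) := by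
    intro v hv
    calc (m : ℝ) * (N.filter fun x => x ∉ Tv T V v).card =
          ∑ x ∈ N.filter (fun x => x ∉ Tv T V v), (m : ℝ) := by
          rw [sum_const, nsmul_eq_mul, mul_comm]
      _ ≤ ∑ x ∈ N.filter (fun x => x ∉ Tv T V v), gg c m (ape_s a x) :=
          sum_le_sum fun x hx => gg_m hm (hNlt x (mem_erase.1 (mem_filter.1 hx).1).2)
      _ ≤ _ := by
          apply sum_le_sum_of_subset_of_nonneg
          · intro x hx
            rw [mem_sdiff]
            exact ⟨(mem_nmx.1 (mem_erase.1 (mem_filter.1 hx).1).2).1, (mem_filter.1 hx).2⟩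
          · intro x _ _
            exact gg_nonneg _
  obtain ⟨κ, hκd⟩ : ∃ κ, κ = min (d - 2 * s + 2) (2 * s) := ⟨_, rfl⟩
  have hκ1 : κ ≤ d - 2 * s + 2 := by rw [hκd]; exact min_le_left _ _
  have hκ2 : κ ≤ 2 * s := by rw [hκd]; exact min_le_right _ _
  have hκ0 : 0 < κ := by
    rw [hκd]
    exact lt_min hκ (by linarith)
  have h6 : ∀ v ∈ V, m * (κ * N.card) ≤ (d - 2 * s + 2) * (((Tv T V v).card : ℝ) * W v) +
      2 * s * ∑ x ∈ T0 T V \ Tv T V v, gg c m (ape_s a x) := by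
    intro v hv
    have e1 : (N.card : ℝ) = (N.filter fun x => x ∈ Tv T V v).card +
        (N.filter fun x => x ∉ Tv T V v).card := by
      have := card_filter_add_card_filter_not (s := N) (fun x => x ∈ Tv T V v)
      exact_mod_cast this.symm
    have e2 : κ * (m * (N.filter fun x => x ∈ Tv T V v).card) ≤
        (d - 2 * s + 2) * (((Tv T V v).card : ℝ) * W v) :=
      mul_le_mul hκ1 (h4 v hv) (by positivity) hκ.le
    have e3 : κ * (m * (N.filter fun x => x ∉ Tv T V v).card) ≤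
        2 * s * ∑ x ∈ T0 T V \ Tv T V v, gg c m (ape_s a x) :=
      mul_le_mul hκ2 (h5 v hv) (by positivity) (by linarith)
    rw [e1]
    linarith
  have h7 := sum_le_sum h6
  have eS : ∑ v ∈ V, ((d - 2 * s + 2) * (((Tv T V v).card : ℝ) * W v) +
      2 * s * ∑ x ∈ T0 T V \ Tv T V v, gg c m (ape_s a x)) =
      ∑ v ∈ V, (d - 2 * s + 2) * (((Tv T V v).card : ℝ) * W v) +
      2 * s * ∑ v ∈ V, ∑ x ∈ T0 T V \ Tv T V v, gg c m (ape_s a x) := by
    rw [sum_add_distrib]
    congr 1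
    exact (mul_sum _ _ _).symm
  rw [sum_const, nsmul_eq_mul, eS] at h7
  have hVk : (V.card : ℝ) * κ ≥ 2 * s * s := by
    have e0 : (V.card : ℝ) = d - s := by linarith
    have e2 : 0 ≤ d - s := by
      rw [← e0]
      exact Nat.cast_nonneg _
    rw [hκd, e0]
    rcases min_choice (d - 2 * s + 2) (2 * s) with h | h <;> rw [h]
    · nlinarith
    · nlinarith
  have hN0 : (N.card : ℝ) ≤ 0 := by
    by_contra hcon2
    rw [not_le] at hcon2
    have e1 : 2 * s * s * (m * N.card) ≤ V.card * κ * (m * N.card) :=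
      mul_le_mul_of_nonneg_right hVk (by positivity)
    have e2 : 0 < 2 * s * s * N.card := by positivity
    nlinarith
  have h8 : ∑ v ∈ V, (d - 2 * s + 2) * (((Tv T V v).card : ℝ) * W v) +
      2 * s * ∑ v ∈ V, ∑ x ∈ T0 T V \ Tv T V v, gg c m (ape_s a x) ≤ 0 := by
    have e1 : (N.card : ℝ) = 0 := le_antisymm hN0 (Nat.cast_nonneg _)
    rw [e1, mul_zero, mul_zero, mul_zero] at h3
    exact h3
  -- a contradiction
  have hVpos : 0 < V.card := by
    have : (0 : ℝ) < V.card := by linarith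
    exact_mod_cast this
  obtain ⟨v, hv⟩ := card_pos.1 hVpos
  have hP0 : ∀ v ∈ V, 0 ≤ (d - 2 * s + 2) * (((Tv T V v).card : ℝ) * W v) := fun v _ =>
    mul_nonneg hκ.le (by positivity)
  have h9 := single_le_sum hP0 hv
  have h10 := single_le_sum hZ0 hv
  have h11 : 0 ≤ ∑ v ∈ V, (d - 2 * s + 2) * (((Tv T V v).card : ℝ) * W v) := sum_nonneg hP0
  have h12 : 0 ≤ ∑ v ∈ V, ∑ x ∈ T0 T V \ Tv T V v, gg c m (ape_s a x) := sum_nonneg hZ0
  beta_reduce at h9 h10
  by_cases hmem : Pi.single i0 1 ∈ Tv T V v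
  · have e1 := hWm v hv _ hmem (fun h => by
      have := congrFun h i0
      rw [Pi.single_eq_same, Pi.zero_apply] at this
      exact one_ne_zero this)
    have e2 : 0 < (Tv T V v).card := card_pos.2 ⟨_, hmem⟩
    have e3 : (0 : ℝ) < (Tv T V v).card := by exact_mod_cast e2
    have e4 : (0 : ℝ) < W v := by
      have : 0 < W v := by omega
      exact_mod_cast this
    have e5 : 0 < (d - 2 * s + 2) * (((Tv T V v).card : ℝ) * W v) :=
      mul_pos hκ (mul_pos e3 e4)
    nlinarith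
  · have e1 : (m : ℝ) ≤ ∑ x ∈ T0 T V \ Tv T V v, gg c m (ape_s a x) := by
      have e2 : Pi.single i0 1 ∈ T0 T V \ Tv T V v := mem_sdiff.2 ⟨hsing i0 hi0, hmem⟩
      have e3 := single_le_sum (f := fun x => gg c m (ape_s a x)) (fun x _ => gg_nonneg _) e2
      have e4 : ape_s a (Pi.single i0 1) < c := by
        rw [ape_single]
        have e5 := (mem_filter.1 hi0).2
        have e6 := ha i0
        omega
      exact (gg_m hm e4).trans e3
    nlinarith

end Pool.Agent.WLG
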