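import Pool.Agent.WLG.Sets

/-!
# WLG: the inequality
-/

set_option autoImplicit false

namespace Pool.Agent.WLG

open Finset Pool.Agent.Helper60.Wilf Pool.Agent.Helper82.Wilf

variable {S : AddSubmonoid ℕ} {c m : ℕ}

/-- `m` times the number of elements below `c` in the class of `x` -/
noncomputable def gg (c m x : ℕ) : ℝ := (m : ℝ) * (lam c m x : ℝ)

theorem gg_nonneg (x : ℕ) : 0 ≤ gg c m x := by
  unfold gg
  positivity

theorem gg_ge (H : Sg S c m) {x : ℕ} (hx : x ∈ QQ S c m) : (c : ℝ) - x ≤ gg c m x := by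
  have h := (lam_spec (c := c) H.hm0 (QQ_lt H hx)).1
  have h2 : (c : ℝ) ≤ x + lam c m x * m := by exact_mod_cast h
  unfold gg
  linarith [mul_comm (m : ℝ) (lam c m x : ℝ)]

theorem gg_fib (H : Sg S c m) {u v : ℕ} (hv : v ∈ Vs S c m) (hu : u ∈ Ts S c m v) :
    (u : ℝ) ≤ 2 * gg c m v := by
  rcases Nat.eq_zero_or_pos u with h0 | h0
  · rw [h0, Nat.cast_zero]
    have := gg_nonneg (c := c) (m := m) v
    linarith
  · obtain ⟨h1, h2⟩ := mem_Ts.1 hu
    have h3 := QQ_gt H (mem_Hs.1 h1).1 (by omega)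
    have h4 := QQ_lt H h2
    have h5 := lam_pos (c := c) (x := v) H.hm0 (by omega)
    have h6 := (lam_spec (c := c) H.hm0 (QQ_lt H (Vs_QQ H hv))).1
    have h7 : m ≤ lam c m v * m := Nat.le_mul_of_pos_left m h5
    have h8 : u ≤ 2 * (m * lam c m v) := by
      rw [Nat.mul_comm m]
      omega
    unfold gg
    exact_mod_cast h8

theorem sum_gg (H : Sg S c m) :
    ∑ x ∈ QQ S c m, gg c m x = (m : ℝ) * ((elF S 0 c).card : ℝ) := by
  classical
  unfold QQ gg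
  rw [← mul_sum, card_left H, sum_insert (zero_notMem_A0 H)]
  push_cast
  ring

/-- the small light elements and the elements of `Ns ∪ Vs` -/
theorem part_one (H : Sg S c m) :
    ∑ u ∈ Hs S c m, ((c : ℝ) - u) + ∑ x ∈ Ns S c m ∪ Vs S c m, gg c m x ≤
      (m : ℝ) * ((elF S 0 c).card : ℝ) := by
  classical
  rw [← sum_gg H]
  have h1 : Disjoint (Hs S c m) (Ns S c m ∪ Vs S c m) := by
    rw [disjoint_left]
    intro x hx hx2
    have h2 := (mem_Hs.1 hx).2.1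
    rcases mem_union.1 hx2 with h | h
    · exact (mem_Ns.1 h).2.1 h2
    · exact Vs_notLL H h h2
  have h2 : Hs S c m ∪ (Ns S c m ∪ Vs S c m) ⊆ QQ S c m := by
    intro x hx
    rcases mem_union.1 hx with h | h
    · exact (mem_Hs.1 h).1
    · rcases mem_union.1 h with h | h
      · exact (mem_Ns.1 h).1
      · exact Vs_QQ H h
  calc ∑ u ∈ Hs S c m, ((c : ℝ) - u) + ∑ x ∈ Ns S c m ∪ Vs S c m, gg c m x
      ≤ ∑ u ∈ Hs S c m, gg c m u + ∑ x ∈ Ns S c m ∪ Vs S c m, gg c m x := by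
        apply add_le_add_left
        exact sum_le_sum fun u hu => gg_ge H (mem_Hs.1 hu).1
    _ = ∑ x ∈ Hs S c m ∪ (Ns S c m ∪ Vs S c m), gg c m x := (sum_union h1).symm
    _ ≤ _ := sum_le_sum_of_subset_of_nonneg h2 fun x _ _ => gg_nonneg x

theorem part_two (H : Sg S c m) :
    (c : ℝ) / 4 * (((Hs S c m).card : ℝ) + ((Ns S c m).card : ℝ)) ≤
      (m : ℝ) * ((elF S 0 c).card : ℝ) := by
  classical
  rw [← sum_gg H]
  have h1 : Disjoint (Hs S c m) (Ns S c m) := by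
    rw [disjoint_left]
    intro x hx hx2
    exact (mem_Ns.1 hx2).2.1 (mem_Hs.1 hx).2.1
  have h2 : Hs S c m ∪ Ns S c m ⊆ QQ S c m := by
    intro x hx
    rcases mem_union.1 hx with h | h
    · exact (mem_Hs.1 h).1
    · exact (mem_Ns.1 h).1
  have h3 : ∀ x ∈ Hs S c m ∪ Ns S c m, (c : ℝ) / 4 ≤ gg c m x := by
    intro x hx
    have h4 := gg_ge H (h2 hx)
    have h5 : 4 * x < 3 * c := by
      rcases mem_union.1 hx with h | h
      · exact (mem_Hs.1 h).2.2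
      · exact (mem_Ns.1 h).2.2
    have h6 : (4 : ℝ) * x < 3 * c := by exact_mod_cast h5
    linarith
  calc (c : ℝ) / 4 * (((Hs S c m).card : ℝ) + ((Ns S c m).card : ℝ))
      = ∑ x ∈ Hs S c m ∪ Ns S c m, (c : ℝ) / 4 := by
        rw [sum_const, card_union_of_disjoint h1, nsmul_eq_mul]
        push_cast
        ring
    _ ≤ ∑ x ∈ Hs S c m ∪ Ns S c m, gg c m x := sum_le_sum h3
    _ ≤ _ := sum_le_sum_of_subset_of_nonneg h2 fun x _ _ => gg_nonneg x

theorem part_N (H : Sg S c m) :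
    (c : ℝ) / 4 * ((Ns S c m).card : ℝ) ≤ ∑ x ∈ Ns S c m ∪ Vs S c m, gg c m x := by
  classical
  have h3 : ∀ x ∈ Ns S c m, (c : ℝ) / 4 ≤ gg c m x := by
    intro x hx
    have h4 := gg_ge H (mem_Ns.1 hx).1
    have h6 : (4 : ℝ) * x < 3 * c := by exact_mod_cast (mem_Ns.1 hx).2.2
    linarith
  calc (c : ℝ) / 4 * ((Ns S c m).card : ℝ)
      = ∑ x ∈ Ns S c m, (c : ℝ) / 4 := by
        rw [sum_const, nsmul_eq_mul]
        ring
    _ ≤ ∑ x ∈ Ns S c m, gg c m x := sum_le_sum h3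
    _ ≤ _ := sum_le_sum_of_subset_of_nonneg subset_union_left fun x _ _ => gg_nonneg x

theorem part_V :
    ∑ x ∈ Vs S c m, gg c m x ≤ ∑ x ∈ Ns S c m ∪ Vs S c m, gg c m x := by
  classical
  exact sum_le_sum_of_subset_of_nonneg subset_union_right fun x _ _ => gg_nonneg x

theorem part_v (H : Sg S c m) {v : ℕ} (hv : v ∈ Vs S c m) :
    (c : ℝ) * ((Ts S c m v).card : ℝ) - 2 * gg c m v * ((Hs S c m).card : ℝ) +
      (c : ℝ) / 4 * (((Hs S c m) \ (Ts S c m v)).card : ℝ) ≤ ∑ u ∈ Hs S c m, ((c : ℝ) - u) := by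
  classical
  have hsub : Ts S c m v ⊆ Hs S c m := fun u hu => (mem_Ts.1 hu).1
  rw [← sum_sdiff hsub]
  have h1 : ∑ u ∈ Ts S c m v, ((c : ℝ) - 2 * gg c m v) ≤ ∑ u ∈ Ts S c m v, ((c : ℝ) - u) :=
    sum_le_sum fun u hu => by
      have := gg_fib H hv hu
      linarith
  have h2 : ∑ u ∈ Hs S c m \ Ts S c m v, (c : ℝ) / 4 ≤
      ∑ u ∈ Hs S c m \ Ts S c m v, ((c : ℝ) - u) :=
    sum_le_sum fun u hu => by
      have h3 := (mem_Hs.1 (mem_sdiff.1 hu).1).2.2
      have h6 : (4 : ℝ) * u < 3 * c := by exact_mod_cast h3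
      linarith
  rw [sum_const, nsmul_eq_mul] at h1 h2
  have h3 : ((Ts S c m v).card : ℝ) ≤ ((Hs S c m).card : ℝ) := by exact_mod_cast card_le_card hsub
  have h4 : 2 * gg c m v * ((Ts S c m v).card : ℝ) ≤ 2 * gg c m v * ((Hs S c m).card : ℝ) :=
    mul_le_mul_of_nonneg_left h3 (by have := gg_nonneg (c := c) (m := m) v; linarith)
  nlinarith

theorem part_sum (H : Sg S c m) :
    (c : ℝ) * ((∑ v ∈ Vs S c m, (Ts S c m v).card : ℕ) : ℝ) -
      2 * (∑ x ∈ Vs S c m, gg c m x) * ((Hs S c m).card : ℝ) +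
      (c : ℝ) / 4 * ((∑ v ∈ Vs S c m, ((Hs S c m) \ (Ts S c m v)).card : ℕ) : ℝ) ≤
      ((Vs S c m).card : ℝ) * ∑ u ∈ Hs S c m, ((c : ℝ) - u) := by
  classical
  have h := sum_le_sum fun v (hv : v ∈ Vs S c m) => part_v H hv
  rw [sum_const, nsmul_eq_mul, sum_add_distrib, sum_sub_distrib, ← mul_sum, ← mul_sum,
    ← sum_mul, ← mul_sum] at h
  push_cast
  exact h

end Pool.Agent.WLG
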