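import Pool.Agent.WLG.Avn
import Pool.Agent.WLG.Gee
import Pool.Agent.WLF.Ape

/-!
# WLG: fibres over the large generators
-/

set_option autoImplicit false

namespace Pool.Agent.WLG

open Finset Pool.Agent.WLF Pool.Agent.Helper60.Wilf Pool.Agent.Helper82.Wilf

variable {k : ℕ}

/-- the points without large coordinates -/
noncomputable def T0 (T : Finset (Fin k → ℕ)) (V : Finset (Fin k)) : Finset (Fin k → ℕ) := by
  classical
  exact T.filter fun x => ∀ v ∈ V, x v = 0

/-- the fibre -/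
noncomputable def Tv (T : Finset (Fin k → ℕ)) (V : Finset (Fin k)) (v : Fin k) :
    Finset (Fin k → ℕ) := by
  classical
  exact (T0 T V).filter fun x => Function.update x v 1 ∈ T

theorem mem_T0 {T : Finset (Fin k → ℕ)} {V : Finset (Fin k)} {x : Fin k → ℕ} :
    x ∈ T0 T V ↔ x ∈ T ∧ ∀ v ∈ V, x v = 0 := by
  classical
  unfold T0
  rw [mem_filter]

theorem mem_Tv {T : Finset (Fin k → ℕ)} {V : Finset (Fin k)} {v : Fin k} {x : Fin k → ℕ} :
    x ∈ Tv T V v ↔ x ∈ T0 T V ∧ Function.update x v 1 ∈ T := by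
  classical
  unfold Tv
  rw [mem_filter]

theorem T0_down {T : Finset (Fin k → ℕ)} {V : Finset (Fin k)}
    (hT : ∀ x ∈ T, ∀ y : Fin k → ℕ, y ≤ x → y ∈ T) :
    ∀ x ∈ T0 T V, ∀ y : Fin k → ℕ, y ≤ x → y ∈ T0 T V := by
  intro x hx y hy
  obtain ⟨h1, h2⟩ := mem_T0.1 hx
  exact mem_T0.2 ⟨hT x h1 y hy, fun v hv => Nat.le_zero.1 ((hy v).trans_eq (h2 v hv))⟩

theorem Tv_down {T : Finset (Fin k → ℕ)} {V : Finset (Fin k)} {v : Fin k}
    (hT : ∀ x ∈ T, ∀ y : Fin k → ℕ, y ≤ x → y ∈ T) :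
    ∀ x ∈ Tv T V v, ∀ y : Fin k → ℕ, y ≤ x → y ∈ Tv T V v := by
  intro x hx y hy
  obtain ⟨h1, h2⟩ := mem_Tv.1 hx
  refine mem_Tv.2 ⟨T0_down hT x h1 y hy, hT _ h2 _ ?_⟩
  intro j
  by_cases hj : j = v
  · subst hj
    rw [Function.update_self, Function.update_self]
  · rw [Function.update_of_ne hj, Function.update_of_ne hj]
    exact hy j

theorem ape_s_ge (a x : Fin k → ℕ) (i : Fin k) : a i * x i ≤ ape_s a x :=
  Finset.single_le_sum (f := fun i => a i * x i) (fun _ _ => Nat.zero_le _) (Finset.mem_univ i)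

theorem ape_s_ge_two (a x : Fin k → ℕ) {i j : Fin k} (h : i ≠ j) :
    a i * x i + a j * x j ≤ ape_s a x := by
  unfold ape_s
  rw [← Finset.sum_pair (f := fun i => a i * x i) h]
  exact Finset.sum_le_sum_of_subset (Finset.subset_univ _)

theorem ape_s_update (a x : Fin k → ℕ) (i : Fin k) (h : x i = 0) (n : ℕ) :
    ape_s a (Function.update x i n) = ape_s a x + a i * n := by
  unfold ape_s
  rw [← Finset.sum_erase_add _ _ (mem_univ i), ← Finset.sum_erase_add (s := univ)
    (f := fun i => a i * x i) (h := mem_univ i), Function.update_self, h]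
  have h1 : ∑ j ∈ univ.erase i, a j * (Function.update x i n j) = ∑ j ∈ univ.erase i, a j * x j := by
    refine Finset.sum_congr rfl fun j hj => ?_
    rw [Function.update_of_ne (Finset.ne_of_mem_erase hj)]
  rw [h1]
  ring

theorem ape_s_succ (a x : Fin k → ℕ) (i : Fin k) :
    ape_s a (Function.update x i (x i + 1)) = ape_s a x + a i := by
  unfold ape_s
  rw [← Finset.sum_erase_add _ _ (mem_univ i), ← Finset.sum_erase_add (s := univ)
    (f := fun i => a i * x i) (h := mem_univ i), Function.update_self]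
  have h1 : ∑ j ∈ univ.erase i, a j * (Function.update x i (x i + 1) j) =
      ∑ j ∈ univ.erase i, a j * x j := by
    refine Finset.sum_congr rfl fun j hj => ?_
    rw [Function.update_of_ne (Finset.ne_of_mem_erase hj)]
  rw [h1]
  ring

/-- the partition -/
theorem part {T : Finset (Fin k → ℕ)} {V : Finset (Fin k)} {a : Fin k → ℕ} {M : ℕ}
    (hT : ∀ x ∈ T, ∀ y : Fin k → ℕ, y ≤ x → y ∈ T) (hM : ∀ x ∈ T, ape_s a x ≤ M)
    (hV : ∀ v ∈ V, M < 2 * a v) (g : (Fin k → ℕ) → ℝ) :
    ∑ x ∈ T, g x = ∑ x ∈ T0 T V, g x + ∑ v ∈ V, ∑ x ∈ Tv T V v, g (Function.update x v 1) := by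
  classical
  have hinj : ∀ v ∈ V, Set.InjOn (fun x : Fin k → ℕ => Function.update x v 1)
      (Tv T V v : Set (Fin k → ℕ)) := by
    intro v hv x hx y hy h
    have hx0 := (mem_T0.1 (mem_Tv.1 hx).1).2 v hv
    have hy0 := (mem_T0.1 (mem_Tv.1 hy).1).2 v hv
    funext j
    by_cases hj : j = v
    · rw [hj, hx0, hy0]
    · have := congrFun h j
      simp only [Function.update_of_ne hj] at this
      exact this
  have h1 : ∑ v ∈ V, ∑ x ∈ Tv T V v, g (Function.update x v 1) =
      ∑ x ∈ V.biUnion (fun v => (Tv T V v).image fun x => Function.update x v 1), g x := by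
    rw [sum_biUnion]
    · apply sum_congr rfl
      intro v hv
      rw [sum_image (hinj v hv)]
    · intro v hv v' hv' hne
      rw [Function.onFun, disjoint_left]
      intro x hx hx'
      obtain ⟨u, hu, rfl⟩ := mem_image.1 hx
      obtain ⟨u', hu', h⟩ := mem_image.1 hx'
      have e1 := congrFun h v
      rw [Function.update_of_ne hne, Function.update_self,
        (mem_T0.1 (mem_Tv.1 hu').1).2 v hv] at e1
      omega
  have h2 : T = T0 T V ∪ V.biUnion (fun v => (Tv T V v).image fun x => Function.update x v 1) := by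
    ext x
    rw [mem_union, mem_T0, mem_biUnion]
    constructor
    · intro hx
      by_cases h0 : ∀ v ∈ V, x v = 0
      · exact Or.inl ⟨hx, h0⟩
      · right
        push Not at h0
        obtain ⟨v, hv, hxv⟩ := h0
        have hMx := hM x hx
        have e1 : x v = 1 := by
          have e2 := ape_s_ge a x v
          have e3 := hV v hv
          by_contra hcon
          have e4 : 2 ≤ x v := by omega
          have e5 := Nat.mul_le_mul_left (a v) e4
          omega
        refine ⟨v, hv, mem_image.2 ⟨Function.update x v 0, ?_, ?_⟩⟩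
        · rw [mem_Tv, mem_T0, Function.update_idem, ← e1, Function.update_eq_self]
          refine ⟨⟨hT x hx _ ?_, ?_⟩, hx⟩
          · intro j
            by_cases hj : j = v
            · rw [hj, Function.update_self]
              exact Nat.zero_le _
            · rw [Function.update_of_ne hj]
          · intro v' hv'
            by_cases hj : v' = v
            · rw [hj, Function.update_self]
            · rw [Function.update_of_ne hj]
              by_contra h
              have e2 := ape_s_ge_two a x hj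
              have e3 := hV v hv
              have e4 := hV v' hv'
              have e5 := Nat.mul_le_mul_left (a v') (Nat.one_le_iff_ne_zero.2 h)
              rw [e1] at e2
              omega
        · rw [Function.update_idem, ← e1, Function.update_eq_self]
    · rintro (h | ⟨v, _, hx⟩)
      · exact h.1
      · obtain ⟨u, hu, rfl⟩ := mem_image.1 hx
        exact (mem_Tv.1 hu).2
  have h3 : Disjoint (T0 T V)
      (V.biUnion (fun v => (Tv T V v).image fun x => Function.update x v 1)) := by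
    rw [disjoint_left]
    intro x hx hx'
    rw [mem_biUnion] at hx'
    obtain ⟨v, hv, hx'⟩ := hx'
    obtain ⟨u, _, rfl⟩ := mem_image.1 hx'
    have := (mem_T0.1 hx).2 v hv
    rw [Function.update_self] at this
    omega
  rw [h1]
  conv_lhs => rw [h2]
  exact sum_union h3

theorem part_card {T : Finset (Fin k → ℕ)} {V : Finset (Fin k)} {a : Fin k → ℕ} {M : ℕ}
    (hT : ∀ x ∈ T, ∀ y : Fin k → ℕ, y ≤ x → y ∈ T) (hM : ∀ x ∈ T, ape_s a x ≤ M)
    (hV : ∀ v ∈ V, M < 2 * a v) :
    (T.card : ℝ) = (T0 T V).card + ∑ v ∈ V, ((Tv T V v).card : ℝ) := by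
  have h := part hT hM hV (fun _ => (1 : ℝ))
  simp only [sum_const, nsmul_eq_mul, mul_one] at h
  exact h

theorem gg_half {c m y e : ℕ} (hm : 0 < m) (h : y + e < c + m) (he : m ≤ e) :
    (e : ℝ) ≤ 2 * gg c m y := by
  have h5 := lam_pos (c := c) (x := y) hm (by omega)
  have h6 := (lam_spec (c := c) hm (show y < c + m by omega)).1
  have h7 : m ≤ lam c m y * m := Nat.le_mul_of_pos_left m h5
  have h8 : e ≤ 2 * (m * lam c m y) := by
    rw [Nat.mul_comm m]
    omega
  unfold gg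
  exact_mod_cast h8

theorem gg_ge' {c m y : ℕ} (hm : 0 < m) (h : y < c + m) : (c : ℝ) - y ≤ gg c m y := by
  have h1 := (lam_spec (c := c) hm h).1
  have h2 : (c : ℝ) ≤ y + lam c m y * m := by exact_mod_cast h1
  unfold gg
  linarith [mul_comm (m : ℝ) (lam c m y : ℝ)]

theorem gg_m {c m y : ℕ} (hm : 0 < m) (h : y < c) : (m : ℝ) ≤ gg c m y := by
  have h5 := lam_pos (c := c) (x := y) hm h
  have h6 : (1 : ℝ) ≤ lam c m y := by exact_mod_cast h5
  have h7 : (0 : ℝ) ≤ m := Nat.cast_nonneg _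
  unfold gg
  nlinarith

theorem wt_ape (a x : Fin k → ℕ) : wt (fun i => (a i : ℝ)) x = ((ape_s a x : ℕ) : ℝ) := by
  unfold wt ape_s
  push_cast
  rfl

/-- one fibre -/
theorem fibre {c m : ℕ} (hm : 0 < m) {a : Fin k → ℕ} (ha : ∀ i, m < a i)
    {D : Finset (Fin k → ℕ)} (hD : ∀ x ∈ D, ∀ y : Fin k → ℕ, y ≤ x → y ∈ D)
    {U : Finset (Fin k)} (hU : ∀ x ∈ D, ∀ i, i ∉ U → x i = 0) {b : ℕ}
    (hb : ∀ x ∈ D, ape_s a x + b < c + m) (h0 : (0 : Fin k → ℕ) ∈ D) {d : ℝ} (hd : 0 ≤ d) :
    ∃ W : ℕ, (∀ x ∈ D, ape_s a x ≤ W) ∧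
      2 * ((U.card : ℝ) + 1) * (c * D.card) +
        (d - 2 * ((U.card : ℝ) + 1) + 2) * (D.card * W) ≤
      2 * ((U.card : ℝ) + 1) * (∑ x ∈ D, gg c m (ape_s a x) +
        d * ∑ x ∈ D, gg c m (ape_s a x + b)) := by
  classical
  have hs : (1 : ℝ) ≤ (U.card : ℝ) + 1 := by
    have : (0 : ℝ) ≤ U.card := Nat.cast_nonneg _
    linarith
  have hA : ∑ x ∈ D, ((c : ℝ) - ape_s a x) ≤ ∑ x ∈ D, gg c m (ape_s a x) :=
    sum_le_sum fun x hx => gg_ge' hm (by have := hb x hx; omega)
  rw [sum_sub_distrib, sum_const, nsmul_eq_mul] at hA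
  have hB0 : 0 ≤ ∑ x ∈ D, gg c m (ape_s a x + b) := sum_nonneg fun x _ => gg_nonneg _
  by_cases hne : ∃ x ∈ D, x ≠ 0
  · obtain ⟨x1, hx1, hx1'⟩ := Finset.exists_max_image D (ape_s a) ⟨0, h0⟩
    refine ⟨ape_s a x1, hx1', ?_⟩
    set W := ape_s a x1 with hW
    have h1 := avn D hD (fun i => (a i : ℝ)) U hU (W : ℝ)
      (fun x hx => by rw [wt_ape]; exact_mod_cast hx1' x hx) hne
    have h2 : ∑ x ∈ nmx D, ((W : ℝ) - wt (fun i => (a i : ℝ)) x) ≤
        2 * ∑ x ∈ D, gg c m (ape_s a x + b) := by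
      rw [mul_sum]
      refine (sum_le_sum (g := fun x => 2 * gg c m (ape_s a x + b)) ?_).trans
        (sum_le_sum_of_subset_of_nonneg (fun x hx => (mem_nmx.1 hx).1)
          fun x _ _ => mul_nonneg (by norm_num) (gg_nonneg _))
      intro x hx
      obtain ⟨hx2, i, hi⟩ := mem_nmx.1 hx
      have e1 := hx1' _ hi
      rw [ape_s_succ] at e1
      have e2 := ha i
      have e3 := hb x1 hx1
      have e4 : ((W - ape_s a x : ℕ) : ℝ) ≤ 2 * gg c m (ape_s a x + b) :=
        gg_half hm (by omega) (by omega)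
      rw [wt_ape]
      rw [Nat.cast_sub (by omega)] at e4
      exact e4
    have h3 : ∑ x ∈ nmx D, ((W : ℝ) - wt (fun i => (a i : ℝ)) x) ≤
        ∑ x ∈ D, ((W : ℝ) - (ape_s a x : ℝ)) := by
      refine (sum_le_sum (g := fun x => (W : ℝ) - (ape_s a x : ℝ)) ?_).trans
        (sum_le_sum_of_subset_of_nonneg (fun x hx => (mem_nmx.1 hx).1) ?_)
      · intro x _
        rw [wt_ape]
      · intro x hx _
        have : (ape_s a x : ℝ) ≤ W := by exact_mod_cast hx1' x hx
        linarith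
    have e3 : ∑ x ∈ D, ((W : ℝ) - (ape_s a x : ℝ)) =
        D.card * W - ∑ x ∈ D, (ape_s a x : ℝ) := by
      rw [sum_sub_distrib, sum_const, nsmul_eq_mul]
    rw [e3] at h3
    set s := (U.card : ℝ) + 1
    set Q := ∑ x ∈ nmx D, ((W : ℝ) - wt (fun i => (a i : ℝ)) x)
    have h4 : s * Q ≤ s * (D.card * W - ∑ x ∈ D, (ape_s a x : ℝ)) :=
      mul_le_mul_of_nonneg_left h3 (by linarith)
    have h5 : d * (D.card * W) ≤ d * (s * Q) := mul_le_mul_of_nonneg_left h1 hd
    have h6 : d * (s * Q) ≤ d * (s * (2 * ∑ x ∈ D, gg c m (ape_s a x + b))) :=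
      mul_le_mul_of_nonneg_left (mul_le_mul_of_nonneg_left h2 (by linarith)) hd
    have h7 : s * (D.card * (c : ℝ) - ∑ x ∈ D, (ape_s a x : ℝ)) ≤
        s * ∑ x ∈ D, gg c m (ape_s a x) := mul_le_mul_of_nonneg_left hA (by linarith)
    nlinarith
  · push Not at hne
    have hx0 : ∀ x ∈ D, ape_s a x = 0 := by
      intro x hx
      rw [hne x hx]
      simp [ape_s]
    refine ⟨0, fun x hx => (hx0 x hx).le, ?_⟩
    have e1 : ∑ x ∈ D, (ape_s a x : ℝ) = 0 :=
      sum_eq_zero fun x hx => by rw [hx0 x hx, Nat.cast_zero]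
    rw [e1] at hA
    have e2 : 0 ≤ d * ∑ x ∈ D, gg c m (ape_s a x + b) := mul_nonneg hd hB0
    have e3 : 2 * ((U.card : ℝ) + 1) * (c * D.card) ≤
        2 * ((U.card : ℝ) + 1) * (∑ x ∈ D, gg c m (ape_s a x) +
        d * ∑ x ∈ D, gg c m (ape_s a x + b)) :=
      mul_le_mul_of_nonneg_left (by linarith) (by linarith)
    rw [Nat.cast_zero, mul_zero, mul_zero, add_zero]
    exact e3

end Pool.Agent.WLG
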