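import Pool.Agent.WLG.Gee

/-!
# WLG: the theorem
-/

set_option autoImplicit false

namespace Pool.Agent.WLG

open Finset Pool.Agent.Helper60.Wilf Pool.Agent.Helper82.Wilf

variable {S : AddSubmonoid ℕ} {c m : ℕ}

/-- rare light elements -/
noncomputable def Us' (S : AddSubmonoid ℕ) (c m : ℕ) : Finset ℕ := by
  classical
  exact (Hs S c m).filter (fun u => 3 * (Vs S c m).card ≤
    4 * ((Vs S c m).filter (fun v => u + v ∉ QQ S c m)).card)

theorem mem_Us' {u : ℕ} : u ∈ Us' S c m ↔ u ∈ Hs S c m ∧ 3 * (Vs S c m).card ≤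
    4 * (by classical exact ((Vs S c m).filter (fun v => u + v ∉ QQ S c m)).card) := by
  classical
  unfold Us'
  rw [mem_filter]

/-- double counting of the missing pairs -/
theorem missing : 3 * (Vs S c m).card * (Us' S c m).card ≤
    4 * ∑ v ∈ Vs S c m, ((Hs S c m) \ (Ts S c m v)).card := by
  classical
  have h1 : ∀ v ∈ Vs S c m, ((Hs S c m) \ (Ts S c m v)).card =
      ∑ u ∈ Hs S c m, if u + v ∉ QQ S c m then 1 else 0 := by
    intro v _
    rw [← card_filter]
    apply congrArg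
    ext u
    rw [mem_sdiff, mem_filter, mem_Ts]
    constructor
    · rintro ⟨h1, h2⟩
      exact ⟨h1, fun h3 => h2 ⟨h1, h3⟩⟩
    · rintro ⟨h1, h2⟩
      exact ⟨h1, fun h3 => h2 h3.2⟩
  rw [sum_congr rfl h1, sum_comm]
  have h2 : ∀ u ∈ Us' S c m, 3 * (Vs S c m).card ≤
      4 * ∑ v ∈ Vs S c m, if u + v ∉ QQ S c m then 1 else 0 := by
    intro u hu
    rw [← card_filter]
    exact (mem_Us'.1 hu).2
  calc 3 * (Vs S c m).card * (Us' S c m).card = ∑ u ∈ Us' S c m, 3 * (Vs S c m).card := by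
        rw [sum_const, smul_eq_mul, Nat.mul_comm]
    _ ≤ ∑ u ∈ Us' S c m, 4 * ∑ v ∈ Vs S c m, (if u + v ∉ QQ S c m then 1 else 0) := sum_le_sum h2
    _ = 4 * ∑ u ∈ Us' S c m, ∑ v ∈ Vs S c m, (if u + v ∉ QQ S c m then 1 else 0) := by
        rw [mul_sum]
    _ ≤ 4 * ∑ u ∈ Hs S c m, ∑ v ∈ Vs S c m, (if u + v ∉ QQ S c m then 1 else 0) := by
        apply Nat.mul_le_mul_left
        exact sum_le_sum_of_subset fun u hu => (mem_Us'.1 hu).1

theorem card_Ks_le (H : Sg S c m) (h8 : 8 * m < c) :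
    (Ks S c m).card ≤ (Hs S c m).card * (Hs S c m).card := by
  classical
  have h1 : Ks S c m ⊆ image₂ (fun a b => a + b) (Hs S c m) (Hs S c m) := by
    intro x hx
    obtain ⟨y, hy, z, hz, e, _⟩ := Ks_split H h8 hx
    rw [mem_image₂]
    exact ⟨y, hy, z, hz, e⟩
  exact (card_le_card h1).trans (card_image₂_le _ _ _)

theorem card_Ks_le' (H : Sg S c m) (h8 : 8 * m < c)
    (hr : ∀ y ∈ Hs S c m, 3 * c ≤ 8 * y → y ∈ Us' S c m) :
    (Ks S c m).card ≤ (Us' S c m).card * (Hs S c m).card := by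
  classical
  have h1 : Ks S c m ⊆ image₂ (fun a b => a + b) (Us' S c m) (Hs S c m) := by
    intro x hx
    obtain ⟨y, hy, z, hz, e, h3⟩ := Ks_split H h8 hx
    rw [mem_image₂]
    exact ⟨y, hr y hy h3, z, hz, e⟩
  exact (card_le_card h1).trans (card_image₂_le _ _ _)

/-- a popular large light element -/
theorem popular (H : Sg S c m) {y : ℕ} (hy : y ∈ Hs S c m) (h8 : 3 * c ≤ 8 * y)
    (hn : y ∉ Us' S c m) :
    3 * (c : ℝ) * ((Vs S c m).card : ℝ) ≤ 64 * ∑ v ∈ Vs S c m, gg c m v := by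
  classical
  have h1 : ¬ 3 * (Vs S c m).card ≤ 4 * ((Vs S c m).filter (fun v => y + v ∉ QQ S c m)).card :=
    fun h => hn (mem_Us'.2 ⟨hy, h⟩)
  have h2 := card_filter_add_card_filter_not (s := Vs S c m) (fun v => y + v ∉ QQ S c m)
  set W := (Vs S c m).filter (fun v => ¬ y + v ∉ QQ S c m) with hW
  have h3 : (Vs S c m).card ≤ 4 * W.card := by omega
  have h4 : ∀ v ∈ W, 3 * (c : ℝ) / 16 ≤ gg c m v := by
    intro v hv
    obtain ⟨h5, h6⟩ := mem_filter.1 hv
    have h7 := gg_fib H h5 (mem_Ts.2 ⟨hy, not_not.1 h6⟩)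
    have h9 : 3 * (c : ℝ) ≤ 8 * y := by exact_mod_cast h8
    linarith
  have h5 : ∑ v ∈ W, 3 * (c : ℝ) / 16 ≤ ∑ v ∈ Vs S c m, gg c m v :=
    (sum_le_sum h4).trans (sum_le_sum_of_subset_of_nonneg (filter_subset _ _)
      fun x _ _ => gg_nonneg x)
  rw [sum_const, nsmul_eq_mul] at h5
  have h6 : ((Vs S c m).card : ℝ) ≤ 4 * (W.card : ℝ) := by exact_mod_cast h3
  have h7 : (0 : ℝ) ≤ c := Nat.cast_nonneg _
  nlinarith

/-- lower bound for the sum over the small light elements -/
theorem low_one :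
    (c : ℝ) / 4 * ((Hs S c m).card : ℝ) ≤ ∑ u ∈ Hs S c m, ((c : ℝ) - u) := by
  classical
  calc (c : ℝ) / 4 * ((Hs S c m).card : ℝ) = ∑ u ∈ Hs S c m, (c : ℝ) / 4 := by
        rw [sum_const, nsmul_eq_mul]
        ring
    _ ≤ _ := sum_le_sum fun u hu => by
        have h6 : (4 : ℝ) * u < 3 * c := by exact_mod_cast (mem_Hs.1 hu).2.2
        linarith

theorem low_two (hc : 0 < c) (hr : ∀ y ∈ Hs S c m, 3 * c ≤ 8 * y → y ∈ Us' S c m) :
    (c : ℝ) + 5 * (c : ℝ) / 8 * (((Hs S c m).card : ℝ) - ((Us' S c m).card : ℝ) - 1) +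
      (c : ℝ) / 4 * ((Us' S c m).card : ℝ) ≤ ∑ u ∈ Hs S c m, ((c : ℝ) - u) := by
  classical
  have h0 := zero_Hs (S := S) (m := m) hc
  have hcr : (0 : ℝ) < c := by exact_mod_cast hc
  rw [← sum_erase_add _ _ h0]
  have h1 : ∀ u ∈ (Hs S c m).erase 0, 5 * (c : ℝ) / 8 - (if u ∈ Us' S c m then 3 * (c : ℝ) / 8 else 0) ≤
      (c : ℝ) - u := by
    intro u hu
    have hu' := (mem_erase.1 hu).2
    have h6 : (4 : ℝ) * u < 3 * c := by exact_mod_cast (mem_Hs.1 hu').2.2
    split_ifs with h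
    · linarith
    · have h7 : ¬ 3 * c ≤ 8 * u := fun h8 => h (hr u hu' h8)
      have h8 : 8 * u < 3 * c := by omega
      have h9 : (8 : ℝ) * u < 3 * c := by exact_mod_cast h8
      linarith
  have h2 := sum_le_sum h1
  rw [sum_sub_distrib, sum_const, nsmul_eq_mul, ← sum_filter, sum_const, nsmul_eq_mul] at h2
  have h3 : ((((Hs S c m).erase 0).filter (fun u => u ∈ Us' S c m)).card : ℝ) ≤
      ((Us' S c m).card : ℝ) := by
    have : (((Hs S c m).erase 0).filter (fun u => u ∈ Us' S c m)).card ≤ (Us' S c m).card :=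
      card_le_card fun u hu => (mem_filter.1 hu).2
    exact_mod_cast this
  have h4 : (((Hs S c m).erase 0).card : ℝ) = ((Hs S c m).card : ℝ) - 1 := by
    have := card_erase_add_one h0
    rw [← this]
    push_cast
    ring
  rw [h4] at h2
  push_cast at h2 ⊢
  nlinarith

/-- **Theorem G.** -/
theorem thm_G (H : Sg S c m) {A : Finset ℕ} (hA : ∀ a, a ∈ A ↔ Prim S a) (hc : 0 < c)
    (hne : A.card ≠ m) (hd : 32 * m ≤ A.card ^ 2) : c < A.card * (elF S 0 c).card := by
  classical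
  rcases Nat.lt_or_ge (8 * m) c with h8 | h8
  swap
  · refine thm_P H hA hc hne ?_
    have h1 : lam c m 0 ≤ 8 := by
      unfold lam
      have hm0 := H.hm0
      rw [← Nat.lt_succ_iff, Nat.div_lt_iff_lt_mul hm0]
      omega
    have h2 : (lam c m 0) ^ 2 ≤ 64 := by nlinarith
    calc (lam c m 0) ^ 2 * m ≤ 64 * m := Nat.mul_le_mul_right _ h2
      _ ≤ 2 * A.card ^ 2 := by omega
  by_contra hcon
  rw [not_lt] at hcon
  have hle := card_le H hA
  have hmA : m ∈ A := (hA m).2 H.prim_m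
  have hd0 : 0 < A.card := card_pos.2 ⟨m, hmA⟩
  have hd32 : 32 ≤ A.card := by
    by_contra h
    rw [not_le] at h
    nlinarith
  have q1 := part_one H
  have q2 := part_two H
  have q3 := part_N H
  have q4 := part_V (S := S) (c := c) (m := m)
  have q5 := part_sum H
  have q6 := cover H h8
  have q7 := card_Rs H h8
  have q8 := card_UV H hA
  have q9 := Us_sub H hc
  have q10 := missing (S := S) (c := c) (m := m)
  have hcr : (0 : ℝ) < c := by exact_mod_cast hc
  have hcon' : (A.card : ℝ) * ((elF S 0 c).card : ℝ) ≤ c := by exact_mod_cast hcon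
  have hmn : (A.card : ℝ) * ((m : ℝ) * ((elF S 0 c).card : ℝ)) ≤ c * m := by
    have : (m : ℝ) * ((A.card : ℝ) * ((elF S 0 c).card : ℝ)) ≤ m * c :=
      mul_le_mul_of_nonneg_left hcon' (Nat.cast_nonneg _)
    linarith
  have hdr : 32 * (m : ℝ) ≤ (A.card : ℝ) ^ 2 := by exact_mod_cast hd
  have hd0r : (32 : ℝ) ≤ (A.card : ℝ) := by exact_mod_cast hd32
  have q6r : (m : ℝ) ≤ (Hs S c m).card + (Ks S c m).card + (Rs S c m).card +
      ((∑ v ∈ Vs S c m, (Ts S c m v).card : ℕ) : ℝ) := by exact_mod_cast q6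
  have q7r : ((Rs S c m).card : ℝ) ≤ (Ns S c m).card * (Ns S c m).card := by exact_mod_cast q7
  have q8r : ((Us S c m).card : ℝ) + (Vs S c m).card + 1 = A.card := by exact_mod_cast q8
  have q9r : ((Us S c m).card : ℝ) + 1 ≤ (Hs S c m).card := by exact_mod_cast q9
  have q10r : 3 * ((Vs S c m).card : ℝ) * (Us' S c m).card ≤
    4 * ((∑ v ∈ Vs S c m, ((Hs S c m) \ (Ts S c m v)).card : ℕ) : ℝ) := by exact_mod_cast q10
  have hX0 : 0 ≤ ∑ x ∈ Ns S c m ∪ Vs S c m, gg c m x := sum_nonneg fun x _ => gg_nonneg x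
  have hN0 : (0 : ℝ) ≤ (Ns S c m).card := Nat.cast_nonneg _
  have hH0 : (0 : ℝ) ≤ (Hs S c m).card := Nat.cast_nonneg _
  -- the small sets
  have hsmall : 8 * (((Hs S c m).card : ℝ) + (Ns S c m).card) ≤ A.card := by
    have e1 : (A.card : ℝ) * ((c : ℝ) / 4 * (((Hs S c m).card : ℝ) + ((Ns S c m).card : ℝ))) ≤
        c * m := (mul_le_mul_of_nonneg_left q2 (by linarith)).trans hmn
    have e2 : (c : ℝ) * ((A.card : ℝ) * (((Hs S c m).card : ℝ) + ((Ns S c m).card : ℝ))) ≤
        c * (4 * m) := by nlinarith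
    have e3 := le_of_mul_le_mul_left e2 hcr
    have e4 : (A.card : ℝ) * (8 * (((Hs S c m).card : ℝ) + (Ns S c m).card)) ≤
        A.card * A.card := by nlinarith
    exact le_of_mul_le_mul_left e4 (by linarith)
  -- the main inequality
  have hmain : ((Us S c m).card + 1 : ℝ) * (∑ u ∈ Hs S c m, ((c : ℝ) - u)) +
      (c : ℝ) / 4 * ((∑ v ∈ Vs S c m, ((Hs S c m) \ (Ts S c m v)).card : ℕ) : ℝ) +
      (A.card : ℝ) / 2 * (∑ x ∈ Ns S c m ∪ Vs S c m, gg c m x) ≤
      c * ((Hs S c m).card + (Ks S c m).card) := by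
    set X := ∑ x ∈ Ns S c m ∪ Vs S c m, gg c m x with hX
    set AH := ∑ u ∈ Hs S c m, ((c : ℝ) - u) with hAH
    have e1 : (A.card : ℝ) * (AH + X) ≤ c * m :=
      (mul_le_mul_of_nonneg_left q1 (by linarith)).trans hmn
    have e2 := mul_le_mul_of_nonneg_left q6r hcr.le
    have e3 : (c : ℝ) * (Rs S c m).card ≤ 4 * (Ns S c m).card * X := by
      have f1 := mul_le_mul_of_nonneg_left q7r hcr.le
      have f2 := mul_le_mul_of_nonneg_left q3 hN0
      nlinarith
    have e4 : 2 * (∑ x ∈ Vs S c m, gg c m x) * ((Hs S c m).card : ℝ) ≤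
        2 * X * ((Hs S c m).card : ℝ) := mul_le_mul_of_nonneg_right (by linarith) hH0
    have e5 : (2 * ((Hs S c m).card : ℝ) + 4 * (Ns S c m).card) * X ≤ (A.card : ℝ) / 2 * X :=
      mul_le_mul_of_nonneg_right (by linarith) hX0
    have e6 : (A.card : ℝ) * AH = ((Us S c m).card + 1 : ℝ) * AH + (Vs S c m).card * AH := by
      rw [← q8r]
      ring
    nlinarith
  have hDn : (0 : ℝ) ≤ ((∑ v ∈ Vs S c m, ((Hs S c m) \ (Ts S c m v)).card : ℕ) : ℝ) :=
    Nat.cast_nonneg _
  rcases Nat.eq_zero_or_pos (Us S c m).card with hU | hU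
  · -- no light generators
    have hHs : Hs S c m = {0} := by
      apply Finset.eq_singleton_iff_unique_mem.2
      exact ⟨zero_Hs hc, fun x hx => LL_zero H hU (mem_Hs.1 hx).2.1⟩
    have hKs : Ks S c m = ∅ := by
      rw [eq_empty_iff_forall_notMem]
      intro x hx
      have h1 := LL_zero H hU (mem_Ks.1 hx).2.1
      have h2 := (mem_Ks.1 hx).2.2
      omega
    rw [hU, hKs] at hmain
    rw [hHs] at hmain
    simp only [sum_singleton, card_singleton, card_empty, Nat.cast_zero, Nat.cast_one, sub_zero,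
      zero_add, one_mul, add_zero, mul_one] at hmain
    rw [← hHs] at hmain
    have e1 : (A.card : ℝ) / 2 * (∑ x ∈ Ns S c m ∪ Vs S c m, gg c m x) ≤ 0 := by
      have : (0 : ℝ) ≤ (c : ℝ) / 4 *
        ((∑ v ∈ Vs S c m, ((Hs S c m) \ (Ts S c m v)).card : ℕ) : ℝ) := by positivity
      linarith
    have e2 : ((Ns S c m).card : ℝ) ≤ 0 := by
      by_contra hcon2
      rw [not_le] at hcon2
      have f1 : 0 < (c : ℝ) / 4 * ((Ns S c m).card : ℝ) := by positivity
      have f2 : 0 < ∑ x ∈ Ns S c m ∪ Vs S c m, gg c m x := lt_of_lt_of_le f1 q3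
      have f3 : 0 < (A.card : ℝ) / 2 * (∑ x ∈ Ns S c m ∪ Vs S c m, gg c m x) :=
        mul_pos (by linarith) f2
      linarith
    have e3 : (Ns S c m).card = 0 := by
      have : (Ns S c m).card ≤ 0 := by exact_mod_cast e2
      omega
    have e4 : (Rs S c m).card = 0 := by
      rw [e3] at q7
      omega
    have e5 : ∑ v ∈ Vs S c m, (Ts S c m v).card ≤ (Vs S c m).card := by
      rw [card_eq_sum_ones]
      apply sum_le_sum
      intro v _
      have : Ts S c m v ⊆ {0} := by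
        intro u hu
        rw [← hHs]
        exact (mem_Ts.1 hu).1
      exact (card_le_card this).trans (by simp)
    rw [hHs, hKs, e4] at q6
    simp only [card_singleton, card_empty] at q6
    omega
  · -- there are light generators
    have hU1 : (1 : ℝ) ≤ (Us S c m).card := by exact_mod_cast hU
    have hV : 7 / 8 * (A.card : ℝ) ≤ (Vs S c m).card := by linarith
    have hAH := low_one (S := S) (c := c) (m := m)
    have hAH2 : 2 * (∑ u ∈ Hs S c m, ((c : ℝ) - u)) ≤
        ((Us S c m).card + 1 : ℝ) * (∑ u ∈ Hs S c m, ((c : ℝ) - u)) := by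
      apply mul_le_mul_of_nonneg_right (by linarith)
      exact le_trans (by positivity) hAH
    by_cases hr : ∀ y ∈ Hs S c m, 3 * c ≤ 8 * y → y ∈ Us' S c m
    · have hK : ((Ks S c m).card : ℝ) ≤ (Us' S c m).card * (Hs S c m).card := by
        exact_mod_cast card_Ks_le' H h8 hr
      have hL := low_two (S := S) (m := m) hc hr
      have hR0 : (0 : ℝ) ≤ (Us' S c m).card := Nat.cast_nonneg _
      set X := ∑ x ∈ Ns S c m ∪ Vs S c m, gg c m x with hX
      set AH := ∑ u ∈ Hs S c m, ((c : ℝ) - u) with hAHd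
      generalize ((∑ v ∈ Vs S c m, ((Hs S c m) \ (Ts S c m v)).card : ℕ) : ℝ) = D at *
      generalize ((Us' S c m).card : ℝ) = r at *
      generalize ((Hs S c m).card : ℝ) = h at *
      generalize ((Ks S c m).card : ℝ) = k at *
      generalize ((Vs S c m).card : ℝ) = w at *
      generalize (A.card : ℝ) = d at *
      generalize ((Us S c m).card : ℝ) = uu at *
      generalize (c : ℝ) = cc at *
      have g1 : cc * k ≤ cc * (r * h) := mul_le_mul_of_nonneg_left hK hcr.le
      have g2 : r * h ≤ r * (d / 8) := mul_le_mul_of_nonneg_left (by linarith) hR0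
      have g3 : cc * (r * h) ≤ cc * (r * (d / 8)) := mul_le_mul_of_nonneg_left g2 hcr.le
      have g4 : 3 * (7 / 8 * d) * r ≤ 3 * w * r :=
        mul_le_mul_of_nonneg_right (by linarith) hR0
      have g5 : cc / 4 * (21 / 32 * (d * r)) ≤ cc / 4 * D :=
        mul_le_mul_of_nonneg_left (by nlinarith) (by positivity)
      have g6 : 0 ≤ d / 2 * X := mul_nonneg (by linarith) hX0
      have g7 : cc * r * 32 ≤ cc * r * d := mul_le_mul_of_nonneg_left hd0r (by positivity)
      have g8 : 0 ≤ cc * r := by positivity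
      have g9 : 0 ≤ cc * h := by positivity
      nlinarith
    · push Not at hr
      obtain ⟨y, hy, h1, h2⟩ := hr
      have hp := popular H hy h1 h2
      have hK : ((Ks S c m).card : ℝ) ≤ (Hs S c m).card * (Hs S c m).card := by
        exact_mod_cast card_Ks_le H h8
      set X := ∑ x ∈ Ns S c m ∪ Vs S c m, gg c m x with hX
      set AH := ∑ u ∈ Hs S c m, ((c : ℝ) - u) with hAHd
      generalize ((∑ v ∈ Vs S c m, ((Hs S c m) \ (Ts S c m v)).card : ℕ) : ℝ) = D at *
      generalize ((Hs S c m).card : ℝ) = h at *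
      generalize ((Ks S c m).card : ℝ) = k at *
      generalize ((Vs S c m).card : ℝ) = w at *
      generalize (A.card : ℝ) = d at *
      generalize ((Us S c m).card : ℝ) = uu at *
      generalize (c : ℝ) = cc at *
      have g1 : cc * k ≤ cc * (h * h) := mul_le_mul_of_nonneg_left hK hcr.le
      have g2 : h * h ≤ d / 8 * (d / 8) :=
        mul_le_mul (by linarith) (by linarith) hH0 (by linarith)
      have g3 : cc * (h * h) ≤ cc * (d / 8 * (d / 8)) := mul_le_mul_of_nonneg_left g2 hcr.le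
      have g4 : 0 ≤ cc / 4 * D := by positivity
      have g5 : 3 * cc * (7 / 8 * d) ≤ 64 * X := by
        have : 3 * cc * (7 / 8 * d) ≤ 3 * cc * w :=
          mul_le_mul_of_nonneg_left hV (by positivity)
        linarith
      have g6 : d / 2 * (3 * cc * (7 / 8 * d) / 64) ≤ d / 2 * X :=
        mul_le_mul_of_nonneg_left (by linarith) (by linarith)
      have g7 : cc * h ≤ cc * (d / 8) := mul_le_mul_of_nonneg_left (by linarith) hcr.le
      have g8 : cc * d * 32 ≤ cc * d * d := mul_le_mul_of_nonneg_left hd0r (by positivity)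
      have g9 : 0 < cc * d := by
        apply mul_pos hcr
        linarith
      nlinarith

end Pool.Agent.WLG
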