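import Pool.Agent.WLG.Base

/-!
# WLG: small conductor
-/

set_option autoImplicit false

namespace Pool.Agent.WLG

open Finset Pool.Agent.Helper60.Wilf Pool.Agent.Helper82.Wilf

variable {S : AddSubmonoid ℕ} {c m : ℕ}

/-- the decomposable Apery elements -/
noncomputable def DE (S : AddSubmonoid ℕ) (c m : ℕ) : Finset ℕ := by
  classical
  exact (A0 S c m).filter (fun s => ¬ Prim S s)

theorem card_DE (H : Sg S c m) {A : Finset ℕ} (hA : ∀ a, a ∈ A ↔ Prim S a) :
    A.card + (DE S c m).card = m := by
  classical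
  have h1 : (A0 S c m).filter (fun s => Prim S s) = A.erase m := by
    ext x
    rw [mem_filter, mem_A0 H, mem_erase, hA]
    constructor
    · rintro ⟨h1, h2⟩
      have := H.ap_gt h1
      exact ⟨by omega, h2⟩
    · rintro ⟨h1, h2⟩
      exact ⟨H.prim_ap h2 h1, h2⟩
  have h2 := card_filter_add_card_filter_not (s := A0 S c m) (fun s => Prim S s)
  have h3 := card_A0 H
  have hm : m ∈ A := (hA m).2 H.prim_m
  have h4 := card_erase_add_one hm
  rw [h1] at h2
  unfold DE
  omega

theorem card_le (H : Sg S c m) {A : Finset ℕ} (hA : ∀ a, a ∈ A ↔ Prim S a) : A.card ≤ m := by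
  have := card_DE H hA
  omega

theorem card_DE_le (H : Sg S c m) :
    2 * (DE S c m).card ≤
      ((A0 S c m).filter (fun x => x < c)).card * (((A0 S c m).filter (fun x => x < c)).card + 1) := by
  classical
  rw [← two_mul_card_pairs]
  apply Nat.mul_le_mul_left
  have h1 : DE S c m ⊆ (pairs ((A0 S c m).filter (fun x => x < c))).image (fun p => p.1 + p.2) := by
    intro z hz
    unfold DE at hz
    rw [mem_filter, mem_A0 H] at hz
    obtain ⟨a, b, ha, hb, hab⟩ := H.not_prim hz.1 hz.2
    have hz' := H.ap_lt hz.1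
    have ha' := H.ap_gt ha
    have hb' := H.ap_gt hb
    rw [mem_image]
    rcases Nat.le_total a b with h | h
    · refine ⟨(a, b), ?_, hab⟩
      rw [mem_pairs]
      simp only [mem_filter, mem_A0 H]
      exact ⟨⟨ha, by omega⟩, ⟨hb, by omega⟩, h⟩
    · refine ⟨(b, a), ?_, by simpa [Nat.add_comm] using hab⟩
      rw [mem_pairs]
      simp only [mem_filter, mem_A0 H]
      exact ⟨⟨hb, by omega⟩, ⟨ha, by omega⟩, h⟩
  exact (card_le_card h1).trans card_image_le

theorem card_elF_ge (H : Sg S c m) :
    lam c m 0 + ((A0 S c m).filter (fun x => x < c)).card ≤ (elF S 0 c).card := by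
  classical
  rw [card_left H]
  apply Nat.add_le_add_left
  rw [card_filter]
  apply sum_le_sum
  intro x _
  split_ifs with h
  · exact lam_pos H.hm0 h
  · exact Nat.zero_le _

/-- **Theorem P.** -/
theorem thm_P (H : Sg S c m) {A : Finset ℕ} (hA : ∀ a, a ∈ A ↔ Prim S a) (hc : 0 < c)
    (hne : A.card ≠ m) (hq : (lam c m 0) ^ 2 * m ≤ 2 * A.card ^ 2) :
    c < A.card * (elF S 0 c).card := by
  classical
  by_contra hcon
  rw [not_lt] at hcon
  have h1 := card_DE H hA
  have h2 := card_DE_le H
  have h3 := card_elF_ge H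
  have h4 := (lam_spec (c := c) H.hm0 (show 0 < c + m by omega)).1
  have hq0 := lam_pos (c := c) (m := m) (x := 0) H.hm0 hc
  have hmA : m ∈ A := (hA m).2 H.prim_m
  have hd0 : 0 < A.card := card_pos.2 ⟨m, hmA⟩
  have hX : 2 ≤ lam c m 0 ∨ ((A0 S c m).filter (fun x => x < c)).card = 0 := by
    by_contra hc2
    push Not at hc2
    obtain ⟨e1, e2⟩ := hc2
    have e3 : lam c m 0 = 1 := by omega
    rw [e3] at h4
    apply e2
    rw [card_eq_zero, filter_eq_empty_iff]
    intro x hx hxc
    have := H.ap_gt ((mem_A0 H).1 hx)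
    omega
  generalize lam c m 0 = q at *
  generalize ((A0 S c m).filter (fun x => x < c)).card = s at *
  generalize (elF S 0 c).card = n at *
  generalize (DE S c m).card = e at *
  generalize A.card = d at *
  have k1 : d * (q + s) ≤ q * (d + e) := by
    calc d * (q + s) ≤ d * n := Nat.mul_le_mul_left _ h3
      _ ≤ c := hcon
      _ ≤ q * m := by omega
      _ = q * (d + e) := by rw [h1]
  have hs : s ≠ 0 := by
    rintro rfl
    have : e = 0 := by omega
    omega
  have hq2 : 2 ≤ q := hX.resolve_right hs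
  have k2 : d * s ≤ q * e := by nlinarith
  have k3 : 2 * d * s ≤ q * (s + 1) * s := by nlinarith
  have k4 : 2 * d ≤ q * (s + 1) := Nat.le_of_mul_le_mul_right k3 (by omega)
  have k5 : d * (q * (q + s)) ≤ d * (2 * d) := by
    have : q * (d * (q + s)) ≤ q * (q * m) := by
      apply Nat.mul_le_mul_left
      rw [← h1]
      exact k1
    nlinarith
  have k6 : q * (q + s) ≤ 2 * d := Nat.le_of_mul_le_mul_left k5 hd0
  have k7 : q * (q + s) ≤ q * (s + 1) := k6.trans k4
  have k8 := Nat.le_of_mul_le_mul_left k7 (by omega)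
  omega

end Pool.Agent.WLG
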