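import Pool.Agent.WLG.Pee

/-!
# WLG: the sets
-/

set_option autoImplicit false

namespace Pool.Agent.WLG

open Finset Pool.Agent.Helper60.Wilf Pool.Agent.Helper82.Wilf

variable {S : AddSubmonoid ℕ} {c m : ℕ}

/-- heavy generators -/
noncomputable def Vs (S : AddSubmonoid ℕ) (c m : ℕ) : Finset ℕ := by
  classical
  exact (A0 S c m).filter (fun v => Prim S v ∧ 3 * c < 8 * v)

/-- light generators -/
noncomputable def Us (S : AddSubmonoid ℕ) (c m : ℕ) : Finset ℕ := by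
  classical
  exact (A0 S c m).filter (fun v => Prim S v ∧ 8 * v ≤ 3 * c)

/-- small light elements -/
noncomputable def Hs (S : AddSubmonoid ℕ) (c m : ℕ) : Finset ℕ := by
  classical
  exact (QQ S c m).filter (fun u => u ∈ LL S c m ∧ 4 * u < 3 * c)

/-- large light elements -/
noncomputable def Ks (S : AddSubmonoid ℕ) (c m : ℕ) : Finset ℕ := by
  classical
  exact (QQ S c m).filter (fun u => u ∈ LL S c m ∧ 3 * c ≤ 4 * u)

/-- small elements outside the light submonoid -/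
noncomputable def Ns (S : AddSubmonoid ℕ) (c m : ℕ) : Finset ℕ := by
  classical
  exact (QQ S c m).filter (fun u => u ∉ LL S c m ∧ 4 * u < 3 * c)

/-- the fibre of a heavy generator -/
noncomputable def Ts (S : AddSubmonoid ℕ) (c m v : ℕ) : Finset ℕ := by
  classical
  exact (Hs S c m).filter (fun u => u + v ∈ QQ S c m)

/-- the rest -/
noncomputable def Rs (S : AddSubmonoid ℕ) (c m : ℕ) : Finset ℕ := by
  classical
  exact (QQ S c m).filter (fun x => x ∉ LL S c m ∧ ∀ v ∈ Vs S c m, ∀ u ∈ LL S c m, u + v ≠ x)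

theorem mem_Vs (H : Sg S c m) {v : ℕ} : v ∈ Vs S c m ↔ Ap S m v ∧ Prim S v ∧ 3 * c < 8 * v := by
  classical
  unfold Vs
  rw [mem_filter, mem_A0 H]

theorem mem_Us (H : Sg S c m) {v : ℕ} : v ∈ Us S c m ↔ Ap S m v ∧ Prim S v ∧ 8 * v ≤ 3 * c := by
  classical
  unfold Us
  rw [mem_filter, mem_A0 H]

theorem mem_Hs {u : ℕ} : u ∈ Hs S c m ↔ u ∈ QQ S c m ∧ u ∈ LL S c m ∧ 4 * u < 3 * c := by
  classical
  unfold Hs
  rw [mem_filter]

theorem mem_Ks {u : ℕ} : u ∈ Ks S c m ↔ u ∈ QQ S c m ∧ u ∈ LL S c m ∧ 3 * c ≤ 4 * u := by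
  classical
  unfold Ks
  rw [mem_filter]

theorem mem_Ns {u : ℕ} : u ∈ Ns S c m ↔ u ∈ QQ S c m ∧ u ∉ LL S c m ∧ 4 * u < 3 * c := by
  classical
  unfold Ns
  rw [mem_filter]

theorem mem_Ts {u v : ℕ} : u ∈ Ts S c m v ↔ u ∈ Hs S c m ∧ u + v ∈ QQ S c m := by
  classical
  unfold Ts
  rw [mem_filter]

theorem mem_Rs {x : ℕ} : x ∈ Rs S c m ↔ x ∈ QQ S c m ∧ x ∉ LL S c m ∧
    ∀ v ∈ Vs S c m, ∀ u ∈ LL S c m, u + v ≠ x := by
  classical
  unfold Rs
  rw [mem_filter]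

theorem Vs_notLL (H : Sg S c m) {v : ℕ} (h : v ∈ Vs S c m) : v ∉ LL S c m := by
  intro h2
  obtain ⟨_, h3, h4⟩ := (mem_Vs H).1 h
  have := prim_LL h3 h2
  omega

theorem Vs_QQ (H : Sg S c m) {v : ℕ} (h : v ∈ Vs S c m) : v ∈ QQ S c m :=
  (mem_QQ H ((mem_Vs H).1 h).2.1.2.1).2 ((mem_Vs H).1 h).1

theorem zero_Hs (hc : 0 < c) : 0 ∈ Hs S c m :=
  mem_Hs.2 ⟨mem_QQ_zero, (LL S c m).zero_mem, by omega⟩

theorem card_UV (H : Sg S c m) {A : Finset ℕ} (hA : ∀ a, a ∈ A ↔ Prim S a) :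
    (Us S c m).card + (Vs S c m).card + 1 = A.card := by
  classical
  have hm : m ∈ A := (hA m).2 H.prim_m
  have h4 := card_erase_add_one hm
  have h1 : A.erase m = Us S c m ∪ Vs S c m := by
    ext x
    rw [mem_union, mem_Us H, mem_Vs H, mem_erase, hA]
    constructor
    · rintro ⟨h1, h2⟩
      have h3 := H.prim_ap h2 h1
      rcases Nat.lt_or_ge (3 * c) (8 * x) with h | h
      · exact Or.inr ⟨h3, h2, h⟩
      · exact Or.inl ⟨h3, h2, h⟩
    · rintro (⟨h1, h2, _⟩ | ⟨h1, h2, _⟩)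
      · have := H.ap_gt h1
        exact ⟨by omega, h2⟩
      · have := H.ap_gt h1
        exact ⟨by omega, h2⟩
  have h2 : Disjoint (Us S c m) (Vs S c m) := by
    rw [disjoint_left]
    intro x hx hx2
    have h3 := ((mem_Us H).1 hx).2.2
    have h5 := ((mem_Vs H).1 hx2).2.2
    omega
  rw [h1, card_union_of_disjoint h2] at h4
  omega

theorem Us_sub (H : Sg S c m) (hc : 0 < c) : (Us S c m).card + 1 ≤ (Hs S c m).card := by
  classical
  have h0 : 0 ∉ Us S c m := fun h => ((mem_Us H).1 h).2.1.2.1 rfl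
  rw [← card_insert_of_notMem h0]
  apply card_le_card
  intro x hx
  rcases mem_insert.1 hx with rfl | hx
  · exact zero_Hs hc
  · obtain ⟨h1, h2, h3⟩ := (mem_Us H).1 hx
    exact mem_Hs.2 ⟨(mem_QQ H h2.2.1).2 h1, LL_of_Li ⟨h2, h1, h3⟩, by omega⟩

theorem LL_zero (H : Sg S c m) (hU : (Us S c m).card = 0) {x : ℕ} (hx : x ∈ LL S c m) : x = 0 := by
  by_contra h0
  obtain ⟨u, hu, _⟩ := LL_step hx h0
  rw [card_eq_zero] at hU
  have : u ∈ Us S c m := (mem_Us H).2 ⟨hu.2.1, hu.1, hu.2.2⟩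
  rw [hU] at this
  simp at this

theorem cover (H : Sg S c m) (h8 : 8 * m < c) :
    m ≤ (Hs S c m).card + (Ks S c m).card + (Rs S c m).card +
      ∑ v ∈ Vs S c m, (Ts S c m v).card := by
  classical
  have h1 : QQ S c m ⊆ ((Hs S c m ∪ Ks S c m) ∪ Rs S c m) ∪
      (Vs S c m).biUnion (fun v => (Ts S c m v).image (fun u => u + v)) := by
    intro x hx
    rw [mem_union, mem_union, mem_union, mem_biUnion]
    by_cases hL : x ∈ LL S c m
    · left; left
      rcases Nat.lt_or_ge (4 * x) (3 * c) with h | h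
      · exact Or.inl (mem_Hs.2 ⟨hx, hL, h⟩)
      · exact Or.inr (mem_Ks.2 ⟨hx, hL, h⟩)
    · by_cases hR : x ∈ Rs S c m
      · exact Or.inl (Or.inr hR)
      · right
        rw [mem_Rs] at hR
        push Not at hR
        obtain ⟨v, hv, u, hu, e⟩ := hR hx hL
        refine ⟨v, hv, ?_⟩
        rw [mem_image]
        refine ⟨u, ?_, e⟩
        have h3 := (mem_Vs H).1 hv
        have h4 := QQ_lt H hx
        have h5 : u ∈ QQ S c m := QQ_part H hx (LL_le hu) h3.1.1 e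
        rw [mem_Ts, mem_Hs]
        exact ⟨⟨h5, hu, by omega⟩, by rw [e]; exact hx⟩
  have h2 := card_le_card h1
  have h3 : (QQ S c m).card = m := card_ins H
  rw [h3] at h2
  refine h2.trans ((card_union_le _ _).trans ?_)
  apply Nat.add_le_add
  · exact (card_union_le _ _).trans (Nat.add_le_add_right (card_union_le _ _) _)
  · exact card_biUnion_le.trans (sum_le_sum fun v _ => card_image_le)

theorem card_Rs (H : Sg S c m) (h8 : 8 * m < c) :
    (Rs S c m).card ≤ (Ns S c m).card * (Ns S c m).card := by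
  classical
  have h1 : Rs S c m ⊆ image₂ (fun a b => a + b) (Ns S c m) (Ns S c m) := by
    intro x hx
    obtain ⟨hQ, hL, hR⟩ := mem_Rs.1 hx
    obtain ⟨v, z, h1, h2, h3, h4, h5⟩ := heavy_split H x hQ hL
    have hv : v ∈ Vs S c m := (mem_Vs H).2 ⟨h2, h1, h3⟩
    have hz : z ∉ LL S c m := fun h => hR v hv z h (by omega)
    have hzQ : z ∈ QQ S c m := QQ_part H hQ h4 h2.1 (by omega)
    obtain ⟨v', z', k1, k2, k3, k4, k5⟩ := heavy_split H z hzQ hz
    have hx' := QQ_lt H hQ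
    rw [mem_image₂]
    refine ⟨v, mem_Ns.2 ⟨Vs_QQ H hv, Vs_notLL H hv, by omega⟩, z,
      mem_Ns.2 ⟨hzQ, hz, by omega⟩, h5⟩
  exact (card_le_card h1).trans (card_image₂_le _ _ _)

theorem Ks_split (H : Sg S c m) (h8 : 8 * m < c) {x : ℕ} (hx : x ∈ Ks S c m) :
    ∃ y ∈ Hs S c m, ∃ z ∈ Hs S c m, y + z = x ∧ 3 * c ≤ 8 * y := by
  obtain ⟨hQ, hL, h4⟩ := mem_Ks.1 hx
  have hx' := QQ_lt H hQ
  obtain ⟨y, hy, z, hz, e, h5, h6⟩ := light_split x hL 0 (LL S c m).zero_mem (Nat.add_zero x)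
    (by omega) (by omega)
  exact ⟨y, mem_Hs.2 ⟨QQ_part H hQ (LL_le hy) (LL_le hz) e, hy, h6⟩, z,
    mem_Hs.2 ⟨QQ_part H hQ (LL_le hz) (LL_le hy) (by omega), hz, by omega⟩, e, h5⟩

end Pool.Agent.WLG
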